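import Pool.Agent.Lib.MP_10e784_agBR.Defs

/-!
LEAF Bound.  The coefficients of `G (p X + q Z, u X + v Z)` for a reduced matrix: with `R = p² + u²`: `R > 0`, `R ≤ q² + v²`, `2 |p q + u v| ≤ R`, `p v - q u = 1`.
`R (q² + v²) = (p q + u v)² + (p v - q u)² ≤ R²/4 + 1 ≤ R (q² + v²)/4 + 1`, so `R (q² + v²) ≤ 4/3`, `R² ≤ 4/3`.  Put `S = q² + v²`: `R S ≤ 4/3`; `|p|, |u| ≤ √R`, `|q|, |v| ≤ √S`.
The coefficient of `X^(4-i) Z^i` is a sum over the 5 coefficients `g` of `G` of `g` times a sum of at most 6 (with multiplicity: binomial coefficient `C(4,i) ≤ 6`) products of `4 - i` of `p, u` and `i` of `q, v`,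
so it is at most `500 L * 6 * √R^(4-i) √S^i` in absolute value:
`|a| ≤ 3000 L R²`, `|b| ≤ 3000 L R √(R S) ≤ 5000 L R`, `|c| ≤ 3000 L R S ≤ 5000 L`, `|d| R ≤ 3000 L R S √(R S) ≤ 5000 L`, `|e| R² ≤ 3000 L (R S)² ≤ 6000 L`.
(Useful: for reals `|x y| ≤ ..`; `p² ≤ R`, `|p u| ≤ R`, `|p q| ≤ 2`, since `(p q)² ≤ R S ≤ 4/3`; similarly `|p v|, |u q|, |u v| ≤ 2`, `q² ≤ S`, ..: write each monomial as a product of such pairs.)
-/

namespace MWS

/-- the region of the reduced forms -/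
def Rg (L : ℝ) (a b c d e : ℝ) : Prop :=
  ∃ R : ℝ, 0 < R ∧ R ≤ 2 ∧ |a| ≤ 10000 * L * R ^ 2 ∧ |b| ≤ 10000 * L * R ∧ |c| ≤ 10000 * L ∧
    |d| * R ≤ 10000 * L ∧ |e| * R ^ 2 ≤ 10000 * L

private theorem Bound_mul {x y A B : ℝ} (hx : |x| ≤ A) (hy : |y| ≤ B) : |x * y| ≤ A * B := by
  rw [abs_mul]
  exact mul_le_mul hx hy (abs_nonneg _) ((abs_nonneg _).trans hx)

private theorem Bound_five {K B g1 g2 g3 g4 g5 m1 m2 m3 m4 m5 : ℝ} (hg1 : |g1| ≤ K) (hg2 : |g2| ≤ K)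
    (hg3 : |g3| ≤ K) (hg4 : |g4| ≤ K) (hg5 : |g5| ≤ K) (hm1 : |m1| ≤ B) (hm2 : |m2| ≤ B) (hm3 : |m3| ≤ B)
    (hm4 : |m4| ≤ B) (hm5 : |m5| ≤ B) :
    |g1 * m1 + g2 * m2 + g3 * m3 + g4 * m4 + g5 * m5| ≤ 5 * (K * B) := by
  have h1 := abs_le.1 (Bound_mul hg1 hm1)
  have h2 := abs_le.1 (Bound_mul hg2 hm2)
  have h3 := abs_le.1 (Bound_mul hg3 hm3)
  have h4 := abs_le.1 (Bound_mul hg4 hm4)
  have h5 := abs_le.1 (Bound_mul hg5 hm5)
  rw [abs_le]
  constructor <;> linarith [h1.1, h1.2, h2.1, h2.2, h3.1, h3.2, h4.1, h4.2, h5.1, h5.2]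

theorem bound_red (G : Qu ℝ) (L : ℝ) (hL : 0 < L) (ha : |G.a| ≤ 100 * L) (hb : |G.b| ≤ 100 * L)
    (hc : |G.c| ≤ 100 * L) (hd : |G.d| ≤ 100 * L) (he : |G.e| ≤ 100 * L) (p q u v : ℝ)
    (h : p * v - q * u = 1) (h1 : p ^ 2 + u ^ 2 ≤ q ^ 2 + v ^ 2)
    (h2 : 2 * |p * q + u * v| ≤ p ^ 2 + u ^ 2) :
    Rg L (G.sub p q u v).a (G.sub p q u v).b (G.sub p q u v).c (G.sub p q u v).d
      (G.sub p q u v).e := by
  set R : ℝ := p ^ 2 + u ^ 2 with hR
  set S : ℝ := q ^ 2 + v ^ 2 with hS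
  have hR0 : 0 < R := by
    rcases lt_or_eq_of_le (show 0 ≤ R by positivity) with h3 | h3
    · exact h3
    · exfalso
      have hp : p = 0 := by nlinarith [sq_nonneg p, sq_nonneg u]
      have hu : u = 0 := by nlinarith [sq_nonneg p, sq_nonneg u]
      rw [hp, hu] at h
      norm_num at h
  have hid : R * S = (p * q + u * v) ^ 2 + 1 := by
    have e1 : R * S = (p * q + u * v) ^ 2 + (p * v - q * u) ^ 2 := by
      rw [hR, hS]
      ring
    rw [e1, h]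
    ring
  have hpq : (p * q + u * v) ^ 2 ≤ R ^ 2 / 4 := by
    have h3 := abs_nonneg (p * q + u * v)
    have h4 : (2 * |p * q + u * v|) ^ 2 ≤ R ^ 2 := pow_le_pow_left₀ (by linarith) h2 2
    rw [mul_pow, sq_abs] at h4
    linarith
  have hRS' : R ^ 2 ≤ R * S := by
    rw [pow_two]
    exact mul_le_mul_of_nonneg_left h1 hR0.le
  have hRS : R * S ≤ 4 / 3 := by linarith
  have hR2 : R ≤ 2 := by nlinarith
  have hS0 : 0 ≤ S := by positivity
  -- the products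
  have P1 : |p ^ 2| ≤ R := by rw [abs_of_nonneg (sq_nonneg p), hR]; linarith [sq_nonneg u]
  have P2 : |u ^ 2| ≤ R := by rw [abs_of_nonneg (sq_nonneg u), hR]; linarith [sq_nonneg p]
  have P3 : |p * u| ≤ R := by
    rw [abs_le, hR]
    constructor <;> nlinarith [sq_nonneg (p + u), sq_nonneg (p - u), sq_nonneg p, sq_nonneg u]
  have sq65 : ∀ x : ℝ, x ^ 2 ≤ R * S → |x| ≤ 6 / 5 := by
    intro x hx
    refine abs_le_of_sq_le_sq ?_ (by norm_num)
    norm_num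
    linarith
  have Q1 : |p * q| ≤ 6 / 5 := sq65 _ (by
    rw [mul_pow]
    exact mul_le_mul (by rw [hR]; linarith [sq_nonneg u]) (by rw [hS]; linarith [sq_nonneg v]) (sq_nonneg _) hR0.le)
  have Q2 : |p * v| ≤ 6 / 5 := sq65 _ (by
    rw [mul_pow]
    exact mul_le_mul (by rw [hR]; linarith [sq_nonneg u]) (by rw [hS]; linarith [sq_nonneg q]) (sq_nonneg _) hR0.le)
  have Q3 : |u * q| ≤ 6 / 5 := sq65 _ (by
    rw [mul_pow]
    exact mul_le_mul (by rw [hR]; linarith [sq_nonneg p]) (by rw [hS]; linarith [sq_nonneg v]) (sq_nonneg _) hR0.le)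
  have Q4 : |u * v| ≤ 6 / 5 := sq65 _ (by
    rw [mul_pow]
    exact mul_le_mul (by rw [hR]; linarith [sq_nonneg p]) (by rw [hS]; linarith [sq_nonneg q]) (sq_nonneg _) hR0.le)
  have T1 : |q ^ 2 * R| ≤ 4 / 3 := by
    rw [abs_of_nonneg (by positivity)]
    have h3 : q ^ 2 * R ≤ S * R := mul_le_mul_of_nonneg_right (by rw [hS]; linarith [sq_nonneg v]) hR0.le
    linarith
  have T2 : |v ^ 2 * R| ≤ 4 / 3 := by
    rw [abs_of_nonneg (by positivity)]
    have h3 : v ^ 2 * R ≤ S * R := mul_le_mul_of_nonneg_right (by rw [hS]; linarith [sq_nonneg q]) hR0.le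
    linarith
  have T3 : |q * v * R| ≤ 4 / 3 := by
    have h3 : |q * v| ≤ S := by
      rw [abs_le, hS]
      constructor <;> nlinarith [sq_nonneg (q + v), sq_nonneg (q - v), sq_nonneg q, sq_nonneg v]
    rw [abs_mul, abs_of_pos hR0]
    have h4 := mul_le_mul_of_nonneg_right h3 hR0.le
    linarith
  have hLR : 0 < L * R := mul_pos hL hR0
  have hLR2 : 0 < L * R ^ 2 := by positivity
  refine ⟨R, hR0, hR2, ?_, ?_, ?_, ?_, ?_⟩
  · have e1 : (G.sub p q u v).a = G.a * (p ^ 2 * p ^ 2) + G.b * (p ^ 2 * (p * u)) + G.c * (p ^ 2 * u ^ 2) +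
        G.d * (p * u * u ^ 2) + G.e * (u ^ 2 * u ^ 2) := by
      simp only [Qu.sub]
      ring
    rw [e1]
    refine (Bound_five ha hb hc hd he (Bound_mul P1 P1) (Bound_mul P1 P3) (Bound_mul P1 P2) (Bound_mul P3 P2)
      (Bound_mul P2 P2)).trans ?_
    nlinarith
  · have e1 : (G.sub p q u v).b = G.a * (4 * (p ^ 2 * (p * q))) +
        G.b * (3 * (p * u * (p * q)) + p ^ 2 * (p * v)) +
        G.c * (2 * (u ^ 2 * (p * q)) + 2 * (p ^ 2 * (u * v))) +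
        G.d * (u ^ 2 * (u * q) + 3 * (p * u * (u * v))) + G.e * (4 * (u ^ 2 * (u * v))) := by
      simp only [Qu.sub]
      ring
    rw [e1]
    have m1 := abs_le.1 (Bound_mul P1 Q1)
    have m2 := abs_le.1 (Bound_mul P3 Q1)
    have m3 := abs_le.1 (Bound_mul P1 Q2)
    have m4 := abs_le.1 (Bound_mul P2 Q1)
    have m5 := abs_le.1 (Bound_mul P1 Q4)
    have m6 := abs_le.1 (Bound_mul P2 Q3)
    have m7 := abs_le.1 (Bound_mul P3 Q4)
    have m8 := abs_le.1 (Bound_mul P2 Q4)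
    have b1 : |4 * (p ^ 2 * (p * q))| ≤ 4 * (R * (6 / 5)) := by
      rw [abs_le]; constructor <;> linarith [m1.1, m1.2]
    have b2 : |3 * (p * u * (p * q)) + p ^ 2 * (p * v)| ≤ 4 * (R * (6 / 5)) := by
      rw [abs_le]; constructor <;> linarith [m2.1, m2.2, m3.1, m3.2]
    have b3 : |2 * (u ^ 2 * (p * q)) + 2 * (p ^ 2 * (u * v))| ≤ 4 * (R * (6 / 5)) := by
      rw [abs_le]; constructor <;> linarith [m4.1, m4.2, m5.1, m5.2]
    have b4 : |u ^ 2 * (u * q) + 3 * (p * u * (u * v))| ≤ 4 * (R * (6 / 5)) := by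
      rw [abs_le]; constructor <;> linarith [m6.1, m6.2, m7.1, m7.2]
    have b5 : |4 * (u ^ 2 * (u * v))| ≤ 4 * (R * (6 / 5)) := by
      rw [abs_le]; constructor <;> linarith [m8.1, m8.2]
    refine (Bound_five ha hb hc hd he b1 b2 b3 b4 b5).trans ?_
    nlinarith
  · have e1 : (G.sub p q u v).c = G.a * (6 * (p * q * (p * q))) +
        G.b * (3 * (p * q * (u * q)) + 3 * (p * q * (p * v))) +
        G.c * (u * q * (u * q) + 4 * (p * q * (u * v)) + p * v * (p * v)) +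
        G.d * (3 * (u * q * (u * v)) + 3 * (u * v * (p * v))) + G.e * (6 * (u * v * (u * v))) := by
      simp only [Qu.sub]
      ring
    rw [e1]
    have m1 := abs_le.1 (Bound_mul Q1 Q1)
    have m2 := abs_le.1 (Bound_mul Q1 Q3)
    have m3 := abs_le.1 (Bound_mul Q1 Q2)
    have m4 := abs_le.1 (Bound_mul Q3 Q3)
    have m5 := abs_le.1 (Bound_mul Q1 Q4)
    have m6 := abs_le.1 (Bound_mul Q2 Q2)
    have m7 := abs_le.1 (Bound_mul Q3 Q4)
    have m8 := abs_le.1 (Bound_mul Q4 Q2)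
    have m9 := abs_le.1 (Bound_mul Q4 Q4)
    have b1 : |6 * (p * q * (p * q))| ≤ 6 * (6 / 5 * (6 / 5)) := by
      rw [abs_le]; constructor <;> linarith [m1.1, m1.2]
    have b2 : |3 * (p * q * (u * q)) + 3 * (p * q * (p * v))| ≤ 6 * (6 / 5 * (6 / 5)) := by
      rw [abs_le]; constructor <;> linarith [m2.1, m2.2, m3.1, m3.2]
    have b3 : |u * q * (u * q) + 4 * (p * q * (u * v)) + p * v * (p * v)| ≤ 6 * (6 / 5 * (6 / 5)) := by
      rw [abs_le]; constructor <;> linarith [m4.1, m4.2, m5.1, m5.2, m6.1, m6.2]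
    have b4 : |3 * (u * q * (u * v)) + 3 * (u * v * (p * v))| ≤ 6 * (6 / 5 * (6 / 5)) := by
      rw [abs_le]; constructor <;> linarith [m7.1, m7.2, m8.1, m8.2]
    have b5 : |6 * (u * v * (u * v))| ≤ 6 * (6 / 5 * (6 / 5)) := by
      rw [abs_le]; constructor <;> linarith [m9.1, m9.2]
    refine (Bound_five ha hb hc hd he b1 b2 b3 b4 b5).trans ?_
    linarith
  · have e0 : |(G.sub p q u v).d| * R = |(G.sub p q u v).d * R| := by
      rw [abs_mul, abs_of_pos hR0]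
    have e1 : (G.sub p q u v).d * R = G.a * (4 * (p * q * (q ^ 2 * R))) +
        G.b * (u * q * (q ^ 2 * R) + 3 * (p * v * (q ^ 2 * R))) +
        G.c * (2 * (u * v * (q ^ 2 * R)) + 2 * (p * q * (v ^ 2 * R))) +
        G.d * (3 * (u * q * (v ^ 2 * R)) + p * v * (v ^ 2 * R)) + G.e * (4 * (u * v * (v ^ 2 * R))) := by
      simp only [Qu.sub]
      ring
    rw [e0, e1]
    have m1 := abs_le.1 (Bound_mul Q1 T1)
    have m2 := abs_le.1 (Bound_mul Q3 T1)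
    have m3 := abs_le.1 (Bound_mul Q2 T1)
    have m4 := abs_le.1 (Bound_mul Q4 T1)
    have m5 := abs_le.1 (Bound_mul Q1 T2)
    have m6 := abs_le.1 (Bound_mul Q3 T2)
    have m7 := abs_le.1 (Bound_mul Q2 T2)
    have m8 := abs_le.1 (Bound_mul Q4 T2)
    have b1 : |4 * (p * q * (q ^ 2 * R))| ≤ 4 * (6 / 5 * (4 / 3)) := by
      rw [abs_le]; constructor <;> linarith [m1.1, m1.2]
    have b2 : |u * q * (q ^ 2 * R) + 3 * (p * v * (q ^ 2 * R))| ≤ 4 * (6 / 5 * (4 / 3)) := by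
      rw [abs_le]; constructor <;> linarith [m2.1, m2.2, m3.1, m3.2]
    have b3 : |2 * (u * v * (q ^ 2 * R)) + 2 * (p * q * (v ^ 2 * R))| ≤ 4 * (6 / 5 * (4 / 3)) := by
      rw [abs_le]; constructor <;> linarith [m4.1, m4.2, m5.1, m5.2]
    have b4 : |3 * (u * q * (v ^ 2 * R)) + p * v * (v ^ 2 * R)| ≤ 4 * (6 / 5 * (4 / 3)) := by
      rw [abs_le]; constructor <;> linarith [m6.1, m6.2, m7.1, m7.2]
    have b5 : |4 * (u * v * (v ^ 2 * R))| ≤ 4 * (6 / 5 * (4 / 3)) := by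
      rw [abs_le]; constructor <;> linarith [m8.1, m8.2]
    refine (Bound_five ha hb hc hd he b1 b2 b3 b4 b5).trans ?_
    linarith
  · have e0 : |(G.sub p q u v).e| * R ^ 2 = |(G.sub p q u v).e * R ^ 2| := by
      rw [abs_mul, abs_of_pos (by positivity : 0 < R ^ 2)]
    have e1 : (G.sub p q u v).e * R ^ 2 = G.a * (q ^ 2 * R * (q ^ 2 * R)) +
        G.b * (q ^ 2 * R * (q * v * R)) + G.c * (q ^ 2 * R * (v ^ 2 * R)) +
        G.d * (q * v * R * (v ^ 2 * R)) + G.e * (v ^ 2 * R * (v ^ 2 * R)) := by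
      simp only [Qu.sub]
      ring
    rw [e0, e1]
    refine (Bound_five ha hb hc hd he (Bound_mul T1 T1) (Bound_mul T1 T3) (Bound_mul T1 T2) (Bound_mul T3 T2)
      (Bound_mul T2 T2)).trans ?_
    linarith

end MWS
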