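import Pool.Agent.Lib.MP_10e784_agBR.Grp

/-!
LEAF Cls.  The quartic of a point determines its class modulo 2.
two_of_rel.  `(fP α x y).sub p q u v` has first coefficient `p⁴ - 6 x p² u² + 8 y p u³ - (3 x² + 4 α) u⁴ = D² G.a = 0` (`Qu.sub_a`, `Qu.ev`).  `u ≠ 0`: otherwise `p⁴ = 0`, and `D = p v - q u = 0`.
Divide by `u⁴`: `l = p / u` is a zero: `two_of_zero`.
cls_of_rel.  `G = fP α x' y'`: `G.sm (D²) = (fP α x y).sub p q u v`, `G.a = 1`, `G.g4.a = 48 x'`.  First coefficients: `D² = f(p, u)` (1).  Covariant: `(G.sm (D²)).g4 = G.g4.sm (D⁴)` has first coefficient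
`48 x' D⁴`; by `Qu.g4_sub` it is `D² * (fP α x y).g4.ev p u`, so `48 x' D² = (fP α x y).g4.ev p u` where `(fP α x y).g4 = (48 x, - 192 y, 288 x² + 192 α, - 192 x y, 192 y² - 48 x (3 x² + 4 α))` (2).
If `u = 0`: (1) `D² = p⁴`, (2) `48 x' p⁴ = 48 x p⁴`, `p ≠ 0`, so `x' = x`: `cls_of_x` (after `subst`).  If `u ≠ 0`: `l = p / u`, `w = D / u²`: `cls_of_sq` from (1), (2) divided by `u⁴`.
-/

namespace MWS

private lemma Cls_ev (a x y p u : ℚ) : (fP a x y).ev p u =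
    p ^ 4 - 6 * x * p ^ 2 * u ^ 2 + 8 * y * p * u ^ 3 - (3 * x ^ 2 + 4 * a) * u ^ 4 := by
  simp only [fP, Qu.ev]
  ring

private lemma Cls_g4 (a x y p u : ℚ) : (fP a x y).g4.ev p u =
    48 * (x * p ^ 4 - 4 * y * p ^ 3 * u + (6 * x ^ 2 + 4 * a) * p ^ 2 * u ^ 2 -
      4 * x * y * p * u ^ 3 + (4 * y ^ 2 - 3 * x ^ 3 - 4 * a * x) * u ^ 4) := by
  simp only [fP, Qu.ev, Qu.g4]
  ring

theorem two_of_rel {α β : ℤ} (hd : dsc α β ≠ 0) (x y : ℚ)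
    (h : (EW ℚ α β).toAffine.Nonsingular x y) (G : Qu ℚ) (hG : Rel (fP (α : ℚ) x y) G)
    (h0 : G.a = 0) : ∃ U : Pt ℚ α β, (.some x y h : Pt ℚ α β) = 2 • U := by
  obtain ⟨p, q, u, v, hD, e⟩ := hG
  have e1 : (p * v - q * u) ^ 2 * G.a = (fP (α : ℚ) x y).ev p u := congrArg Qu.a e
  rw [h0, mul_zero, Cls_ev] at e1
  have hu : u ≠ 0 := by
    intro hu
    subst hu
    have hp : p ^ 4 = 0 := by linear_combination -e1
    have hp0 : p = 0 := pow_eq_zero_iff (by norm_num) |>.1 hp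
    exact hD (by rw [hp0]; ring)
  refine two_of_zero hd x y h (p / u) ?_
  have h2 : (p / u) ^ 4 - 6 * x * (p / u) ^ 2 + 8 * y * (p / u) - (3 * x ^ 2 + 4 * α) =
      (p ^ 4 - 6 * x * p ^ 2 * u ^ 2 + 8 * y * p * u ^ 3 - (3 * x ^ 2 + 4 * α) * u ^ 4) / u ^ 4 := by
    field_simp
  rw [h2, ← e1, zero_div]

theorem cls_of_rel {α β : ℤ} (hd : dsc α β ≠ 0) (x y : ℚ)
    (h : (EW ℚ α β).toAffine.Nonsingular x y) (x' y' : ℚ)
    (h' : (EW ℚ α β).toAffine.Nonsingular x' y')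
    (hR : Rel (fP (α : ℚ) x y) (fP (α : ℚ) x' y')) :
    ∃ U : Pt ℚ α β, (.some x' y' h' : Pt ℚ α β) = .some x y h + 2 • U := by
  obtain ⟨p, q, u, v, hD, e⟩ := hR
  have e1 : (p * v - q * u) ^ 2 * 1 = (fP (α : ℚ) x y).ev p u := congrArg Qu.a e
  rw [mul_one, Cls_ev] at e1
  have e2 : ((fP (α : ℚ) x' y').sm ((p * v - q * u) ^ 2)).g4.a =
      (p * v - q * u) ^ 2 * (fP (α : ℚ) x y).g4.ev p u := by
    rw [e, Qu.g4_sub]
    rfl
  rw [Cls_g4] at e2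
  have e3 : ((fP (α : ℚ) x' y').sm ((p * v - q * u) ^ 2)).g4.a =
      48 * x' * ((p * v - q * u) ^ 2) ^ 2 := by
    simp only [fP, Qu.sm, Qu.g4]
    ring
  rw [e3] at e2
  have e4 : (p * v - q * u) ^ 2 * x' = x * p ^ 4 - 4 * y * p ^ 3 * u +
      (6 * x ^ 2 + 4 * α) * p ^ 2 * u ^ 2 - 4 * x * y * p * u ^ 3 +
      (4 * y ^ 2 - 3 * x ^ 3 - 4 * α * x) * u ^ 4 := by
    have h3 : (48 : ℚ) * (p * v - q * u) ^ 2 ≠ 0 := mul_ne_zero (by norm_num) (pow_ne_zero _ hD)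
    refine mul_left_cancel₀ h3 ?_
    linear_combination e2
  by_cases hu : u = 0
  · subst hu
    have hp : p ≠ 0 := by
      intro hp
      exact hD (by rw [hp]; ring)
    have h4 : x' = x := by
      have h5 : p ^ 4 * x' = p ^ 4 * x := by
        linear_combination e4 - x' * e1
      exact mul_left_cancel₀ (pow_ne_zero _ hp) h5
    subst h4
    exact cls_of_x _ _ h _ h'
  · refine cls_of_sq hd x y h x' y' h' (p / u) ((p * v - q * u) / u ^ 2)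
      (div_ne_zero hD (pow_ne_zero _ hu)) ?_ ?_
    · have h2 : (p / u) ^ 4 - 6 * x * (p / u) ^ 2 + 8 * y * (p / u) - (3 * x ^ 2 + 4 * α) =
          (p ^ 4 - 6 * x * p ^ 2 * u ^ 2 + 8 * y * p * u ^ 3 - (3 * x ^ 2 + 4 * α) * u ^ 4) /
            u ^ 4 := by
        field_simp
      rw [h2, ← e1]
      field_simp
    · have h2 : x * (p / u) ^ 4 - 4 * y * (p / u) ^ 3 + (6 * x ^ 2 + 4 * α) * (p / u) ^ 2 -
          4 * x * y * (p / u) + (4 * y ^ 2 - 3 * x ^ 3 - 4 * α * x) =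
          (x * p ^ 4 - 4 * y * p ^ 3 * u + (6 * x ^ 2 + 4 * α) * p ^ 2 * u ^ 2 -
            4 * x * y * p * u ^ 3 + (4 * y ^ 2 - 3 * x ^ 3 - 4 * α * x) * u ^ 4) / u ^ 4 := by
        field_simp
      rw [h2, ← e4]
      field_simp

end MWS
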