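import Pool.Agent.Lib.MP_10e784_agBR.Bound

/-!
LEAF Cnt.  The number of integral binary quartics in the region with `a ≠ 0` is at most `C H⁵ (1 + log H)`.
Put `K = 10000`.  Every form of the set has an `R` in `(0, 2]`; let `j` be the natural number with `2^(-j) < R ≤ 2^(1-j)`, `T = 2^j`.  Then `|a| ≤ 4 K H/T²`, `|b| ≤ 2 K H/T`, `|c| ≤ K H`, `|d| ≤ K H T`,
`|e| ≤ K H T²`, and `1 ≤ |a|` gives `T² ≤ 4 K H`.
For fixed `j` with `T² ≤ 4 K H` the number of `(a, b, c, d, e)` is at most `(8 K H/T²)(4 K H/T + 1)(2 K H + 1)(2 K H T + 1)(2 K H T² + 1) ≤ (8 K H/T²)(6 K H/T)(3 K H)(3 K H T)(3 K H T²) = 1296 K⁵ H⁵`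
(`1 ≤ 2 K H/T` because `T ≤ T² ≤ 4 K H`.. precisely `T² ≤ 4 K H` and `T ≥ 1` give `T ≤ 2 √(K H) ≤ 2 K H`; a nonzero integer of absolute value at most `x` has at most `2 x` values, an integer at most `2 x + 1`).
The number of `j`: `4^j ≤ 4 K H`, `j ≤ log (4 K H)/log 4`, at most `C' (1 + log H)` values.
The set is finite (a subset of the finite union of boxes), `Set.ncard_le_ncard`, `Set.ncard_iUnion_le` or a `Finset` product `Icc`; integers in an interval: `Int.card_Icc`.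
(It may be easiest to bound the set by `⋃_(j < J) S_j` with `S_j` the image of a product of `Finset.Icc`.)
-/

namespace MWS

open Classical in
/-- the forms in the box of the dyadic scale `j` -/
private noncomputable def Cnt_box (M j : ℕ) : Finset (Qu ℤ) :=
  (((Finset.Icc (-((4 * M / 4 ^ j : ℕ) : ℤ)) ((4 * M / 4 ^ j : ℕ) : ℤ)).erase 0) ×ˢ
    (Finset.Icc (-((2 * M / 2 ^ j : ℕ) : ℤ)) ((2 * M / 2 ^ j : ℕ) : ℤ)) ×ˢ
    (Finset.Icc (-(M : ℤ)) (M : ℤ)) ×ˢ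
    (Finset.Icc (-((M * 2 ^ j : ℕ) : ℤ)) ((M * 2 ^ j : ℕ) : ℤ)) ×ˢ
    (Finset.Icc (-((M * 4 ^ j : ℕ) : ℤ)) ((M * 4 ^ j : ℕ) : ℤ))).image
    (fun p => (⟨p.1, p.2.1, p.2.2.1, p.2.2.2.1, p.2.2.2.2⟩ : Qu ℤ))

private theorem Cnt_Icc (n : ℕ) : (Finset.Icc (-(n : ℤ)) (n : ℤ)).card = 2 * n + 1 := by
  rw [Int.card_Icc]
  omega

private theorem Cnt_Icc0 (n : ℕ) : ((Finset.Icc (-(n : ℤ)) (n : ℤ)).erase 0).card = 2 * n := by
  rw [Finset.card_erase_of_mem, Cnt_Icc]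
  · omega
  · rw [Finset.mem_Icc]
    constructor <;> omega

private theorem Cnt_card (M j : ℕ) (hM : 1 ≤ M) : ((Cnt_box M j).card : ℝ) ≤ 1296 * (M : ℝ) ^ 5 := by
  classical
  have h1 : (Cnt_box M j).card ≤ (2 * (4 * M / 4 ^ j)) * ((2 * (2 * M / 2 ^ j) + 1) *
      ((2 * M + 1) * ((2 * (M * 2 ^ j) + 1) * (2 * (M * 4 ^ j) + 1)))) := by
    unfold Cnt_box
    refine Finset.card_image_le.trans ?_
    rw [Finset.card_product, Finset.card_product, Finset.card_product, Finset.card_product,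
      Cnt_Icc0, Cnt_Icc, Cnt_Icc, Cnt_Icc, Cnt_Icc]
  have hM' : (1 : ℝ) ≤ M := by exact_mod_cast hM
  by_cases hT : 4 ^ j ≤ 4 * M
  · have hT1 : (1 : ℝ) ≤ 2 ^ j := one_le_pow₀ (by norm_num)
    set T : ℝ := 2 ^ j with hTdef
    have hT0 : 0 < T := by linarith
    have h4 : (4 : ℝ) ^ j = T ^ 2 := by
      rw [hTdef, ← pow_mul, mul_comm, pow_mul]
      norm_num
    have hT2 : T ^ 2 ≤ 4 * M := by
      rw [← h4]
      exact_mod_cast hT
    have hTM : T ≤ 2 * M := by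
      by_contra hcon
      push Not at hcon
      nlinarith
    have hA : ((4 * M / 4 ^ j : ℕ) : ℝ) ≤ 4 * M / T ^ 2 := by
      refine Nat.cast_div_le.trans (le_of_eq ?_)
      push_cast
      rw [h4]
    have hB : ((2 * M / 2 ^ j : ℕ) : ℝ) ≤ 2 * M / T := by
      refine Nat.cast_div_le.trans (le_of_eq ?_)
      push_cast
      rfl
    have h2 : ((Cnt_box M j).card : ℝ) ≤ (2 * ((4 * M / 4 ^ j : ℕ) : ℝ)) *
        ((2 * ((2 * M / 2 ^ j : ℕ) : ℝ) + 1) * ((2 * M + 1) * ((2 * (M * T) + 1) *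
          (2 * (M * T ^ 2) + 1)))) := by
      rw [← h4, hTdef]
      exact_mod_cast h1
    have hB2 : 2 * ((2 * M / 2 ^ j : ℕ) : ℝ) + 1 ≤ 6 * M / T := by
      have : 1 ≤ 2 * M / T := by
        rw [le_div_iff₀ hT0]
        linarith
      have e : 6 * (M : ℝ) / T = 2 * (2 * M / T) + 2 * M / T := by ring
      rw [e]
      linarith
    have hA2 : 2 * ((4 * M / 4 ^ j : ℕ) : ℝ) ≤ 8 * M / T ^ 2 := by
      have e : 8 * (M : ℝ) / T ^ 2 = 2 * (4 * M / T ^ 2) := by ring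
      rw [e]
      linarith
    have hC2 : 2 * (M : ℝ) + 1 ≤ 3 * M := by linarith
    have hMT : 1 ≤ (M : ℝ) * T := one_le_mul_of_one_le_of_one_le hM' hT1
    have hMT2 : 1 ≤ (M : ℝ) * T ^ 2 := one_le_mul_of_one_le_of_one_le hM' (one_le_pow₀ hT1)
    have hD2 : 2 * ((M : ℝ) * T) + 1 ≤ 3 * (M * T) := by linarith
    have hE2 : 2 * ((M : ℝ) * T ^ 2) + 1 ≤ 3 * (M * T ^ 2) := by linarith
    refine h2.trans ?_
    calc (2 * ((4 * M / 4 ^ j : ℕ) : ℝ)) *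
        ((2 * ((2 * M / 2 ^ j : ℕ) : ℝ) + 1) * ((2 * M + 1) * ((2 * (M * T) + 1) *
          (2 * (M * T ^ 2) + 1))))
        ≤ (8 * M / T ^ 2) * ((6 * M / T) * ((3 * M) * ((3 * (M * T)) * (3 * (M * T ^ 2))))) := by
          gcongr
      _ = 1296 * (M : ℝ) ^ 5 := by
          field_simp
          norm_num
  · have h3 : 4 * M / 4 ^ j = 0 := Nat.div_eq_of_lt (by omega)
    rw [h3] at h1
    have h4 : (Cnt_box M j).card = 0 := by omega
    rw [h4]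
    push_cast
    positivity

private theorem Cnt_mem {n : ℕ} {x : ℤ} (h : |(x : ℝ)| ≤ n) : x ∈ Finset.Icc (-(n : ℤ)) (n : ℤ) := by
  have h1 : |x| ≤ (n : ℤ) := by exact_mod_cast h
  rw [Finset.mem_Icc]
  exact abs_le.mp h1

private theorem Cnt_sub (H : ℕ) (F : Qu ℤ) (ha : F.a ≠ 0)
    (h : Rg H F.a F.b F.c F.d F.e) :
    ∃ j, j < Nat.log 2 (4 * (10000 * H)) + 1 ∧ F ∈ Cnt_box (10000 * H) j := by
  classical
  obtain ⟨R, hR, hR2, h1, h2, h3, h4, h5⟩ := h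
  obtain ⟨j, hj1, hj2⟩ := exists_nat_pow_near (x := 2 / R) (y := 2)
    (by rw [le_div_iff₀ hR]; linarith) (by norm_num)
  have hT0 : (0 : ℝ) < 2 ^ j := by positivity
  have hRT : R * 2 ^ j ≤ 2 := by
    rw [le_div_iff₀ hR] at hj1
    linarith
  have hRT1 : 1 < R * 2 ^ j := by
    rw [div_lt_iff₀ hR, pow_succ] at hj2
    nlinarith
  have e4 : (4 : ℝ) ^ j = (2 ^ j) ^ 2 := by
    rw [← pow_mul, mul_comm, pow_mul]
    norm_num
  set T : ℝ := 2 ^ j with hT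
  have hH : (0 : ℝ) ≤ H := Nat.cast_nonneg _
  -- the five bounds
  have ba : |(F.a : ℝ)| * T ^ 2 ≤ 4 * (10000 * H) := by
    have : (R * T) ^ 2 ≤ 2 ^ 2 := pow_le_pow_left₀ (by positivity) hRT 2
    calc |(F.a : ℝ)| * T ^ 2 ≤ (10000 * H * R ^ 2) * T ^ 2 := by gcongr
      _ = 10000 * H * (R * T) ^ 2 := by ring
      _ ≤ 10000 * H * 2 ^ 2 := by gcongr
      _ = _ := by ring
  have bb : |(F.b : ℝ)| * T ≤ 2 * (10000 * H) := by
    calc |(F.b : ℝ)| * T ≤ (10000 * H * R) * T := by gcongr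
      _ = 10000 * H * (R * T) := by ring
      _ ≤ 10000 * H * 2 := by gcongr
      _ = _ := by ring
  have bd : |(F.d : ℝ)| ≤ 10000 * H * T := by
    calc |(F.d : ℝ)| ≤ |(F.d : ℝ)| * (R * T) := le_mul_of_one_le_right (abs_nonneg _) hRT1.le
      _ = |(F.d : ℝ)| * R * T := by ring
      _ ≤ 10000 * H * T := by gcongr
  have be : |(F.e : ℝ)| ≤ 10000 * H * T ^ 2 := by
    calc |(F.e : ℝ)| ≤ |(F.e : ℝ)| * (R * T) ^ 2 :=
          le_mul_of_one_le_right (abs_nonneg _) (one_le_pow₀ hRT1.le)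
      _ = |(F.e : ℝ)| * R ^ 2 * T ^ 2 := by ring
      _ ≤ 10000 * H * T ^ 2 := by gcongr
  have ba' : F.a.natAbs * 4 ^ j ≤ 4 * (10000 * H) := by
    have e : ((F.a.natAbs * 4 ^ j : ℕ) : ℝ) = |(F.a : ℝ)| * T ^ 2 := by
      push_cast
      rw [e4, Nat.cast_natAbs, Int.cast_abs]
    have : ((F.a.natAbs * 4 ^ j : ℕ) : ℝ) ≤ ((4 * (10000 * H) : ℕ) : ℝ) := by
      rw [e]
      push_cast
      exact ba
    exact_mod_cast this
  have bb' : F.b.natAbs * 2 ^ j ≤ 2 * (10000 * H) := by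
    have e : ((F.b.natAbs * 2 ^ j : ℕ) : ℝ) = |(F.b : ℝ)| * T := by
      push_cast
      rw [Nat.cast_natAbs, Int.cast_abs]
    have : ((F.b.natAbs * 2 ^ j : ℕ) : ℝ) ≤ ((2 * (10000 * H) : ℕ) : ℝ) := by
      rw [e]
      push_cast
      exact bb
    exact_mod_cast this
  have hpos : 0 < F.a.natAbs := Int.natAbs_pos.mpr ha
  refine ⟨j, ?_, ?_⟩
  · have h6 : 2 ^ j ≤ 4 * (10000 * H) := by
      calc 2 ^ j ≤ 4 ^ j := Nat.pow_le_pow_left (by norm_num) j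
        _ ≤ F.a.natAbs * 4 ^ j := Nat.le_mul_of_pos_left _ hpos
        _ ≤ _ := ba'
    have h7 : 4 * (10000 * H) ≠ 0 := by
      have : 0 < 2 ^ j := by positivity
      omega
    have := Nat.le_log_of_pow_le (by norm_num) h6
    omega
  · unfold Cnt_box
    rw [Finset.mem_image]
    refine ⟨(F.a, F.b, F.c, F.d, F.e), ?_, rfl⟩
    simp only [Finset.mem_product]
    refine ⟨Finset.mem_erase.mpr ⟨ha, ?_⟩, ?_, ?_, ?_, ?_⟩
    · have h6 := (Nat.le_div_iff_mul_le (by positivity)).mpr ba'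
      rw [Finset.mem_Icc]
      omega
    · have h6 := (Nat.le_div_iff_mul_le (by positivity)).mpr bb'
      rw [Finset.mem_Icc]
      omega
    · refine Cnt_mem ?_
      push_cast
      exact h3
    · refine Cnt_mem ?_
      push_cast
      exact bd
    · refine Cnt_mem ?_
      push_cast
      rw [e4]
      exact be

theorem count_region : ∃ C : ℝ, 0 < C ∧ ∀ H : ℕ, 1 ≤ H →
    ({F : Qu ℤ | F.a ≠ 0 ∧ Rg H F.a F.b F.c F.d F.e} : Set (Qu ℤ)).Finite ∧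
    (({F : Qu ℤ | F.a ≠ 0 ∧ Rg H F.a F.b F.c F.d F.e} : Set (Qu ℤ)).ncard : ℝ) ≤
      C * (H : ℝ) ^ 5 * (1 + Real.log H) := by
  classical
  refine ⟨80001 * (1296 * 10000 ^ 5), by positivity, ?_⟩
  intro H hH
  set B : Finset (Qu ℤ) := (Finset.range (Nat.log 2 (4 * (10000 * H)) + 1)).biUnion
    (Cnt_box (10000 * H)) with hB
  have hsub : ({F : Qu ℤ | F.a ≠ 0 ∧ Rg H F.a F.b F.c F.d F.e} : Set (Qu ℤ)) ⊆ (B : Set (Qu ℤ)) := by
    intro F hF
    obtain ⟨j, hj, hm⟩ := Cnt_sub H F hF.1 hF.2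
    rw [Finset.mem_coe, hB, Finset.mem_biUnion]
    exact ⟨j, Finset.mem_range.mpr hj, hm⟩
  refine ⟨B.finite_toSet.subset hsub, ?_⟩
  have hH1 : (1 : ℝ) ≤ H := by exact_mod_cast hH
  have hl0 : 0 ≤ Real.log H := Real.log_nonneg hH1
  have h1 : ({F : Qu ℤ | F.a ≠ 0 ∧ Rg H F.a F.b F.c F.d F.e} : Set (Qu ℤ)).ncard ≤ B.card := by
    have := Set.ncard_le_ncard hsub B.finite_toSet
    rwa [Set.ncard_coe_finset] at this
  have h2 : (B.card : ℝ) ≤ ∑ j ∈ Finset.range (Nat.log 2 (4 * (10000 * H)) + 1),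
      ((Cnt_box (10000 * H) j).card : ℝ) := by
    rw [hB]
    exact_mod_cast Finset.card_biUnion_le
  have h3 : ∑ j ∈ Finset.range (Nat.log 2 (4 * (10000 * H)) + 1),
      ((Cnt_box (10000 * H) j).card : ℝ) ≤
      ((Nat.log 2 (4 * (10000 * H)) : ℝ) + 1) * (1296 * (10000 * H : ℝ) ^ 5) := by
    refine (Finset.sum_le_card_nsmul _ _ (1296 * ((10000 * H : ℕ) : ℝ) ^ 5)
      (fun j _ => Cnt_card _ j (by omega))).trans (le_of_eq ?_)
    rw [Finset.card_range, nsmul_eq_mul]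
    push_cast
    ring
  have h4 : ((Nat.log 2 (4 * (10000 * H)) : ℝ) + 1) ≤ 80001 * (1 + Real.log H) := by
    have h5 : 2 ^ Nat.log 2 (4 * (10000 * H)) ≤ 4 * (10000 * H) :=
      Nat.pow_log_le_self 2 (by omega)
    have h6 : ((2 : ℝ) ^ Nat.log 2 (4 * (10000 * H))) ≤ 40000 * H := by
      have : (((2 : ℕ) ^ Nat.log 2 (4 * (10000 * H)) : ℕ) : ℝ) ≤ ((4 * (10000 * H) : ℕ) : ℝ) := by
        exact_mod_cast h5
      push_cast at this
      linarith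
    have h7 := Real.log_le_log (by positivity) h6
    rw [Real.log_pow, Real.log_mul (by norm_num) (by positivity)] at h7
    have h8 : Real.log 40000 ≤ 40000 - 1 := Real.log_le_sub_one_of_pos (by norm_num)
    have h9 : (1 : ℝ) / 2 < Real.log 2 := by
      have := Real.log_two_gt_d9
      linarith
    have h10 : (0 : ℝ) ≤ (Nat.log 2 (4 * (10000 * H)) : ℝ) := Nat.cast_nonneg _
    nlinarith
  calc (({F : Qu ℤ | F.a ≠ 0 ∧ Rg H F.a F.b F.c F.d F.e} : Set (Qu ℤ)).ncard : ℝ)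
      ≤ (B.card : ℝ) := by exact_mod_cast h1
    _ ≤ _ := h2
    _ ≤ _ := h3
    _ ≤ (80001 * (1 + Real.log H)) * (1296 * (10000 * H : ℝ) ^ 5) :=
        mul_le_mul_of_nonneg_right h4 (by positivity)
    _ = 80001 * (1296 * 10000 ^ 5) * (H : ℝ) ^ 5 * (1 + Real.log H) := by ring

end MWS
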