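import Pool.Agent.Lib.MP_10e784_agW.RA

/-!
# Bielliptic curves, block R: the average of `2 ^ rank` over all elliptic curves.  Definitions
Binary quartic forms `a X⁴ + b X³ Z + c X² Z² + d X Z³ + e Z⁴`, substitutions, invariants, the quartic of a point.
-/

namespace MWS

/-- binary quartic forms -/
@[ext]
structure Qu (R : Type*) where
  /-- coefficient of `X⁴` -/
  a : R
  /-- coefficient of `X³ Z` -/
  b : R
  /-- coefficient of `X² Z²` -/
  c : R
  /-- coefficient of `X Z³` -/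
  d : R
  /-- coefficient of `Z⁴` -/
  e : R

namespace Qu

variable {R : Type*} [CommRing R]

/-- the value at `(X, Z)` -/
def ev (F : Qu R) (X Z : R) : R :=
  F.a * X ^ 4 + F.b * X ^ 3 * Z + F.c * X ^ 2 * Z ^ 2 + F.d * X * Z ^ 3 + F.e * Z ^ 4

/-- the form `F (p X + q Z, u X + v Z)` -/
def sub (F : Qu R) (p q u v : R) : Qu R where
  a := F.a * p ^ 4 + F.b * p ^ 3 * u + F.c * p ^ 2 * u ^ 2 + F.d * p * u ^ 3 + F.e * u ^ 4
  b := F.a * (4 * p ^ 3 * q) + F.b * (3 * p ^ 2 * q * u + p ^ 3 * v) +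
    F.c * (2 * p * q * u ^ 2 + 2 * p ^ 2 * u * v) + F.d * (q * u ^ 3 + 3 * p * u ^ 2 * v) +
    F.e * (4 * u ^ 3 * v)
  c := F.a * (6 * p ^ 2 * q ^ 2) + F.b * (3 * p * q ^ 2 * u + 3 * p ^ 2 * q * v) +
    F.c * (q ^ 2 * u ^ 2 + 4 * p * q * u * v + p ^ 2 * v ^ 2) +
    F.d * (3 * q * u ^ 2 * v + 3 * p * u * v ^ 2) + F.e * (6 * u ^ 2 * v ^ 2)
  d := F.a * (4 * p * q ^ 3) + F.b * (q ^ 3 * u + 3 * p * q ^ 2 * v) +
    F.c * (2 * q ^ 2 * u * v + 2 * p * q * v ^ 2) + F.d * (3 * q * u * v ^ 2 + p * v ^ 3) +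
    F.e * (4 * u * v ^ 3)
  e := F.a * q ^ 4 + F.b * q ^ 3 * v + F.c * q ^ 2 * v ^ 2 + F.d * q * v ^ 3 + F.e * v ^ 4

/-- scalar multiple -/
def sm (s : R) (F : Qu R) : Qu R := ⟨s * F.a, s * F.b, s * F.c, s * F.d, s * F.e⟩

/-- the invariant of degree 2 -/
def I (F : Qu R) : R := 12 * F.a * F.e - 3 * F.b * F.d + F.c ^ 2

/-- the invariant of degree 3 -/
def J (F : Qu R) : R :=
  72 * F.a * F.c * F.e + 9 * F.b * F.c * F.d - 27 * F.a * F.d ^ 2 - 27 * F.e * F.b ^ 2 - 2 * F.c ^ 3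

/-- the quartic covariant -/
def g4 (F : Qu R) : Qu R where
  a := 3 * F.b ^ 2 - 8 * F.a * F.c
  b := 4 * (F.b * F.c - 6 * F.a * F.d)
  c := 2 * (2 * F.c ^ 2 - 24 * F.a * F.e - 3 * F.b * F.d)
  d := 4 * (F.c * F.d - 6 * F.b * F.e)
  e := 3 * F.d ^ 2 - 8 * F.c * F.e

/-- an integral form over `R` -/
def cast (R : Type*) [CommRing R] (F : Qu ℤ) : Qu R := ⟨F.a, F.b, F.c, F.d, F.e⟩

theorem sub_sub (F : Qu R) (p q u v k l m n : R) :
    (F.sub p q u v).sub k l m n = F.sub (p * k + q * m) (p * l + q * n) (u * k + v * m) (u * l + v * n) := by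
  ext <;> simp only [sub] <;> ring

theorem sub_id (F : Qu R) : F.sub 1 0 0 1 = F := by
  ext <;> simp only [sub] <;> ring

theorem sub_sm (F : Qu R) (s p q u v : R) : (F.sm s).sub p q u v = (F.sub p q u v).sm s := by
  ext <;> simp only [sub, sm] <;> ring

theorem sm_sm (F : Qu R) (s t : R) : (F.sm s).sm t = F.sm (t * s) := by
  ext <;> simp only [sm] <;> ring

theorem sub_a (F : Qu R) (p q u v : R) : (F.sub p q u v).a = F.ev p u := rfl

theorem I_sub (F : Qu R) (p q u v : R) : (F.sub p q u v).I = (p * v - q * u) ^ 4 * F.I := by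
  simp only [sub, I]; ring

theorem J_sub (F : Qu R) (p q u v : R) : (F.sub p q u v).J = (p * v - q * u) ^ 6 * F.J := by
  simp only [sub, J]; ring

theorem I_sm (F : Qu R) (s : R) : (F.sm s).I = s ^ 2 * F.I := by
  simp only [sm, I]; ring

theorem J_sm (F : Qu R) (s : R) : (F.sm s).J = s ^ 3 * F.J := by
  simp only [sm, J]; ring

theorem g4_sub (F : Qu R) (p q u v : R) :
    (F.sub p q u v).g4 = (F.g4.sub p q u v).sm ((p * v - q * u) ^ 2) := by
  ext <;> simp only [sub, g4, sm] <;> ring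

theorem cast_sub (F : Qu ℤ) (p q u v : ℤ) :
    (F.sub p q u v).cast R = (F.cast R).sub p q u v := by
  ext <;> simp only [sub, cast] <;> push_cast <;> rfl

theorem cast_I (F : Qu ℤ) : (F.cast R).I = ((F.I : ℤ) : R) := by
  simp only [cast, I]; push_cast; ring

theorem cast_J (F : Qu ℤ) : (F.cast R).J = ((F.J : ℤ) : R) := by
  simp only [cast, J]; push_cast; ring

end Qu

/-- equivalence of binary quartics over the rational numbers: `G = D⁻² F ∘ M`, `D = det M` -/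
def Rel (F G : Qu ℚ) : Prop :=
  ∃ p q u v : ℚ, p * v - q * u ≠ 0 ∧ G.sm ((p * v - q * u) ^ 2) = F.sub p q u v

/-- the quartic of the point `(x, y)` of the curve `y² = x³ + α x + β`: the discriminant of the other two
intersection points of a line through the point, as a function of its slope -/
def fP {R : Type*} [CommRing R] (α x y : R) : Qu R := ⟨1, 0, -6 * x, 8 * y, -(3 * x ^ 2 + 4 * α)⟩

theorem Rel.trans {F G H : Qu ℚ} (h1 : Rel F G) (h2 : Rel G H) : Rel F H := by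
  obtain ⟨p, q, u, v, h0, e1⟩ := h1
  obtain ⟨k, l, m, n, h0', e2⟩ := h2
  refine ⟨p * k + q * m, p * l + q * n, u * k + v * m, u * l + v * n, ?_, ?_⟩
  · have : (p * k + q * m) * (u * l + v * n) - (p * l + q * n) * (u * k + v * m) =
        (p * v - q * u) * (k * n - l * m) := by ring
    rw [this]
    exact mul_ne_zero h0 h0'
  · rw [← Qu.sub_sub, ← e1, Qu.sub_sm, ← e2, Qu.sm_sm]
    congr 1
    ring

theorem Rel.symm {F G : Qu ℚ} (h : Rel F G) : Rel G F := by
  obtain ⟨p, q, u, v, h0, e⟩ := h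
  set D := p * v - q * u with hD
  refine ⟨v / D, -q / D, -u / D, p / D, ?_, ?_⟩
  · have : v / D * (p / D) - -q / D * (-u / D) = 1 / D := by
      field_simp
      rw [hD]; ring
    rw [this]
    exact one_div_ne_zero h0
  · have h1 : v / D * (p / D) - -q / D * (-u / D) = 1 / D := by
      field_simp
      rw [hD]; ring
    rw [h1]
    have h2 : (G.sm (D ^ 2)).sub (v / D) (-q / D) (-u / D) (p / D) = F := by
      rw [e, Qu.sub_sub]
      have e1 : p * (v / D) + q * (-u / D) = 1 := by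
        field_simp
        rw [hD]; ring
      have e2 : p * (-q / D) + q * (p / D) = 0 := by ring
      have e3 : u * (v / D) + v * (-u / D) = 0 := by ring
      have e4 : u * (-q / D) + v * (p / D) = 1 := by
        field_simp
        rw [hD]; ring
      rw [e1, e2, e3, e4, Qu.sub_id]
    rw [← h2, Qu.sub_sm, Qu.sm_sm]
    have h3 : (1 / D) ^ 2 * D ^ 2 = 1 := by
      field_simp
    rw [h3]
    ext <;> simp [Qu.sm]

theorem Rel.I_eq {F G : Qu ℚ} (h : Rel F G) : G.I = F.I := by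
  obtain ⟨p, q, u, v, h0, e⟩ := h
  have h1 := congrArg Qu.I e
  rw [Qu.I_sm, Qu.I_sub, ← pow_mul] at h1
  exact mul_left_cancel₀ (pow_ne_zero _ h0) h1

theorem Rel.J_eq {F G : Qu ℚ} (h : Rel F G) : G.J = F.J := by
  obtain ⟨p, q, u, v, h0, e⟩ := h
  have h1 := congrArg Qu.J e
  rw [Qu.J_sm, Qu.J_sub, ← pow_mul] at h1
  exact mul_left_cancel₀ (pow_ne_zero _ h0) h1

theorem Rel.of_SL {F : Qu ℤ} {k l m n : ℤ} (h : k * n - l * m = 1) :
    Rel (F.cast ℚ) ((F.sub k l m n).cast ℚ) := by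
  have h1 : (k : ℚ) * n - l * m = 1 := by exact_mod_cast h
  refine ⟨k, l, m, n, by rw [h1]; exact one_ne_zero, ?_⟩
  rw [h1, Qu.cast_sub]
  ext <;> simp [Qu.sm]

end MWS
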