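import Pool.Agent.Lib.MP_10e784_agBR.Defs

/-!
LEAF Mod.  The integral model of the quartic of a point.
(1) lowest terms: `x = r / t²`, `y = s / t³` with integers `r, s, t`, `t ≠ 0`, `r` and `t` coprime: from `y² = x³ + α x + β` (for each prime the denominators: `2 v(y.den) = 3 v(x.den)`; or:
`y.den ^ 2 = x.den ^ 3` because `y ^ 2 = (x³ + α x + β)` has in lowest terms the denominator `x.den ^ 3` (its numerator `x.num³ + α x.num x.den² + β x.den³` is prime to `x.den`), so `x.den` is a square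
(`y.den² = x.den³`, `x.den = (y.den / x.den)²`, `Nat.pow_dvd_pow_iff`) ; similar lemmas are in Lib/MP_10e784_ag (search for den_xy or `lowest`), they may be copied).
Then `s² = r³ + α r t⁴ + β t⁶` in `ℤ`.
(2) `k` with `s = k r + t⁶ m` (`r`, `t⁶` coprime: Bezout `Int.isCoprime_iff_gcd_eq_one`; `k = s r⁻¹` modulo `t⁶`).
(3) `r² (k² - r) ≡ α r t⁴ (mod t⁶)`, cancel `r`: `r (k² - r) ≡ α t⁴ (mod t⁶)`; so `t⁴ ∣ k² - r`, `k² - r = t⁴ δ` and `t² ∣ r δ - α`, `r δ - α = t² j`.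
(4) `F = (t², 4 k, 6 t² δ, 4 (k δ + 2 t² m), t² δ² + 4 j + 8 k m)` is `t⁻² f_P (t X + (k/t) Z, Z)`: `Rel` with `p = t`, `q = k / t`, `u = 0`, `v = 1`, determinant `t`:
`F.sm (t²) = (fP α x y).sub t (k/t) 0 1`: five identities: `t² t² = t⁴`, `4 k t² = 4 t³ (k/t)`, `6 t⁴ δ = 6 k² - 6 x t²`, `4 t² (k δ + 2 t² m) = 4 k³/t² - 12 x k + 8 y t`, and
`t² (t² δ² + 4 j + 8 k m) = k⁴/t⁴ - 6 x k²/t² + 8 y k/t - 3 x² - 4 α` (`field_simp`, then linear combinations of (2), (3); test: everything is a polynomial identity after `r = k² - t⁴ δ`,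
`s = k r + t⁶ m`, `α = r δ - t² j`).
-/

namespace MWS

/-- lowest terms of a rational point -/
private theorem Mod_lowest (α β : ℤ) (x y : ℚ) (h : y ^ 2 = x ^ 3 + (α : ℚ) * x + (β : ℚ)) :
    ∃ r s t : ℤ, t ≠ 0 ∧ IsCoprime r t ∧ x = (r : ℚ) / (t : ℚ) ^ 2 ∧ y = (s : ℚ) / (t : ℚ) ^ 3 ∧
      s ^ 2 = r ^ 3 + α * r * t ^ 4 + β * t ^ 6 := by
  have hd0 : (x.den : ℚ) ≠ 0 := by exact_mod_cast x.den_nz
  have he0 : (y.den : ℚ) ≠ 0 := by exact_mod_cast y.den_nz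
  have hx : (x.num : ℚ) / (x.den : ℚ) = x := Rat.num_div_den x
  have hy : (y.num : ℚ) / (y.den : ℚ) = y := Rat.num_div_den y
  have h1 : y.num ^ 2 * (x.den : ℤ) ^ 3 =
      (y.den : ℤ) ^ 2 * (x.num ^ 3 + α * x.num * (x.den : ℤ) ^ 2 + β * (x.den : ℤ) ^ 3) := by
    have h2 : (y.num : ℚ) ^ 2 * (x.den : ℚ) ^ 3 =
        (y.den : ℚ) ^ 2 * ((x.num : ℚ) ^ 3 + α * x.num * (x.den : ℚ) ^ 2 + β * (x.den : ℚ) ^ 3) := by
      rw [← hx, ← hy] at h
      field_simp at h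
      linear_combination h
    exact_mod_cast h2
  have hcx : IsCoprime x.num (x.den : ℤ) := by
    have := x.reduced
    rw [Int.isCoprime_iff_gcd_eq_one]
    exact this
  have hcy : IsCoprime y.num (y.den : ℤ) := by
    have := y.reduced
    rw [Int.isCoprime_iff_gcd_eq_one]
    exact this
  -- the numerator is prime to the denominator
  have hc1 : IsCoprime (x.num ^ 3 + α * x.num * (x.den : ℤ) ^ 2 + β * (x.den : ℤ) ^ 3)
      (x.den : ℤ) := by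
    have h3 : IsCoprime (x.num ^ 3) (x.den : ℤ) := hcx.pow_left
    have h4 := h3.add_mul_left_left (α * x.num * (x.den : ℤ) + β * (x.den : ℤ) ^ 2)
    have h5 : x.num ^ 3 + (x.den : ℤ) * (α * x.num * (x.den : ℤ) + β * (x.den : ℤ) ^ 2) =
        x.num ^ 3 + α * x.num * (x.den : ℤ) ^ 2 + β * (x.den : ℤ) ^ 3 := by ring
    rw [h5] at h4
    exact h4
  have hd1 : (x.den : ℤ) ^ 3 ∣ (y.den : ℤ) ^ 2 := by
    have h6 : (x.den : ℤ) ^ 3 ∣
        (y.den : ℤ) ^ 2 * (x.num ^ 3 + α * x.num * (x.den : ℤ) ^ 2 + β * (x.den : ℤ) ^ 3) :=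
      ⟨y.num ^ 2, by linear_combination -h1⟩
    exact (hc1.symm.pow_left (m := 3)).dvd_of_dvd_mul_right h6
  have hd2 : (y.den : ℤ) ^ 2 ∣ (x.den : ℤ) ^ 3 := by
    have h7 : (y.den : ℤ) ^ 2 ∣ y.num ^ 2 * (x.den : ℤ) ^ 3 := ⟨_, h1⟩
    exact (hcy.symm.pow (m := 2) (n := 2)).dvd_of_dvd_mul_left h7
  have hN : y.den ^ 2 = x.den ^ 3 := by
    apply Nat.dvd_antisymm
    · exact_mod_cast hd2
    · exact_mod_cast hd1
  have hde : x.den ∣ y.den := by
    have h8 : x.den ^ 2 ∣ y.den ^ 2 := ⟨x.den, by rw [hN]; ring⟩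
    exact (Nat.pow_dvd_pow_iff (by norm_num)).mp h8
  obtain ⟨f, hf⟩ := hde
  have hxpos : 0 < x.den := x.pos
  have hf2 : x.den = f ^ 2 := by
    rw [hf] at hN
    have h9 : x.den ^ 2 * f ^ 2 = x.den ^ 2 * x.den := by
      rw [← mul_pow, hN]; ring
    exact (Nat.eq_of_mul_eq_mul_left (by positivity) h9).symm
  have hf3 : y.den = f ^ 3 := by
    rw [hf, hf2]; ring
  have hf0 : (f : ℤ) ≠ 0 := by
    intro h0
    have : f = 0 := by exact_mod_cast h0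
    rw [this] at hf2
    simp at hf2
  have hfq : (f : ℚ) ≠ 0 := by exact_mod_cast hf0
  refine ⟨x.num, y.num, f, hf0, ?_, ?_, ?_, ?_⟩
  · rw [hf2] at hcx
    push_cast at hcx
    exact IsCoprime.of_isCoprime_of_dvd_right hcx (dvd_pow_self _ (by norm_num))
  · have h10 : (x.den : ℚ) = (f : ℚ) ^ 2 := by rw [hf2]; push_cast; ring
    rw [h10] at hx
    push_cast
    exact hx.symm
  · have h11 : (y.den : ℚ) = (f : ℚ) ^ 3 := by rw [hf3]; push_cast; ring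
    rw [h11] at hy
    push_cast
    exact hy.symm
  · have h12 : (x.den : ℤ) = (f : ℤ) ^ 2 := by rw [hf2]; push_cast; ring
    have h13 : (y.den : ℤ) = (f : ℤ) ^ 3 := by rw [hf3]; push_cast; ring
    rw [h12, h13] at h1
    have h14 : ((f : ℤ) ^ 6) ≠ 0 := pow_ne_zero _ hf0
    apply mul_left_cancel₀ h14
    linear_combination h1

/-- the integers `k`, `m`, `δ`, `j` -/
private theorem Mod_ints (α β r s t : ℤ) (ht : t ≠ 0) (hc : IsCoprime r t)
    (h : s ^ 2 = r ^ 3 + α * r * t ^ 4 + β * t ^ 6) :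
    ∃ k m δ j : ℤ, s = k * r + t ^ 6 * m ∧ r = k ^ 2 - t ^ 4 * δ ∧ α = r * δ - t ^ 2 * j := by
  have hc6 : IsCoprime r (t ^ 6) := hc.pow_right
  obtain ⟨a, b, hab⟩ := hc6
  have hs : s = (s * a) * r + t ^ 6 * (s * b) := by linear_combination -s * hab
  generalize s * a = k at hs
  generalize s * b = m at hs
  have h1 : t ^ 6 ∣ r * (r * (k ^ 2 - r) - α * t ^ 4) :=
    ⟨β - 2 * k * r * m - t ^ 6 * m ^ 2, by rw [hs] at h; linear_combination h⟩
  have hc6' : IsCoprime (t ^ 6) r := (hc.pow_right (n := 6)).symm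
  obtain ⟨j, hj⟩ := hc6'.dvd_of_dvd_mul_left h1
  have h2 : t ^ 4 ∣ r * (k ^ 2 - r) := ⟨α + t ^ 2 * j, by linear_combination hj⟩
  have hc4 : IsCoprime (t ^ 4) r := (hc.pow_right (n := 4)).symm
  obtain ⟨δ, hδ⟩ := hc4.dvd_of_dvd_mul_left h2
  refine ⟨k, m, δ, j, hs, by linear_combination -hδ, ?_⟩
  have h3 : t ^ 4 ≠ 0 := pow_ne_zero _ ht
  apply mul_left_cancel₀ h3
  linear_combination r * hδ - hj

theorem exists_model (α β : ℤ) (x y : ℚ) (h : y ^ 2 = x ^ 3 + (α : ℚ) * x + (β : ℚ)) :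
    ∃ F : Qu ℤ, Rel (fP (α : ℚ) x y) (F.cast ℚ) := by
  obtain ⟨r, s, t, ht, hc, hx, hy, hE⟩ := Mod_lowest α β x y h
  obtain ⟨k, m, δ, j, h1, h2, h3⟩ := Mod_ints α β r s t ht hc hE
  have htq : (t : ℚ) ≠ 0 := by exact_mod_cast ht
  have e1 : (s : ℚ) = k * r + (t : ℚ) ^ 6 * m := by exact_mod_cast h1
  have e2 : (r : ℚ) = (k : ℚ) ^ 2 - (t : ℚ) ^ 4 * δ := by exact_mod_cast h2
  have e3 : (α : ℚ) = r * δ - (t : ℚ) ^ 2 * j := by exact_mod_cast h3
  refine ⟨⟨t ^ 2, 4 * k, 6 * t ^ 2 * δ, 4 * (k * δ + 2 * t ^ 2 * m),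
    t ^ 2 * δ ^ 2 + 4 * j + 8 * k * m⟩, t, (k : ℚ) / t, 0, 1, ?_, ?_⟩
  · simpa using htq
  · rw [hx, hy, e3, e1, e2]
    ext
    · simp only [Qu.sub, Qu.sm, Qu.cast, fP]
      push_cast
      ring
    · simp only [Qu.sub, Qu.sm, Qu.cast, fP]
      push_cast
      field_simp
      ring
    · simp only [Qu.sub, Qu.sm, Qu.cast, fP]
      push_cast
      field_simp
      ring
    · simp only [Qu.sub, Qu.sm, Qu.cast, fP]
      push_cast
      field_simp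
      ring
    · simp only [Qu.sub, Qu.sm, Qu.cast, fP]
      push_cast
      field_simp
      ring

end MWS
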