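import Pool.Agent.Lib.MP_10e784_agBR.Defs

/-!
LEAF RealD.  A real binary quartic without a real zero and with `|I| ≤ 48 L²` is `G ∘ g`, `g` of determinant 1, all coefficients of `G` at most `100 L`.
(1) `F.a ≠ 0`; the polynomial `F(X, 1)` of degree 4 over `ℝ` has no real zero, so by `Irreducible.degree_le_two` (irreducible real polynomials have degree at most 2; none of degree 1) it is the product of two
quadratic polynomials: `F = s (X² + b₁ X Z + c₁ Z²)(X² + b₂ X Z + c₂ Z²)`, `s = F.a`, `b_i² < 4 c_i`.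
(2) `M₁ = (1/√(√(c₁ - b₁²/4)), ..)`: there is `g₁` of determinant 1 and `a₁ > 0` with `(X² + b₁ X Z + c₁ Z²) ∘ g₁ = a₁ (X² + Z²)`: `X² + b₁ X Z + c₁ Z² = (X + b₁ Z/2)² + D Z²`, `D = c₁ - b₁²/4 > 0`; substitute
`X = μ X' - (b₁/2) μ⁻¹ Z'`, `Z = μ⁻¹ Z'` with `μ² = √D`, i.e. `μ⁴ = D`: `μ² X'² + D μ⁻² Z'² = √D (X'² + Z'²)`.
(3) the second factor becomes a positive definite form `A X² + B X Z + C Z²` (`A > 0`, `B² < 4 A C`); a rotation `X = cos θ X' - sin θ Z'`, `Z = sin θ X' + cos θ Z'` removes its middle term (spectral theorem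
for 2x2 matrices, or: the angle `θ` with `(C - A) sin 2θ + B cos 2θ = 0`; it exists by the intermediate value theorem on `[0, π/2]` or explicitly; or choose `(cos θ, sin θ)` as a minimum of the form on the unit
circle) and keeps `X² + Z²`.  The new diagonal coefficients are positive (values of a positive definite form).
(4) So `G = F.sub g = s a₁ (X² + Z²)(a₂ X² + c₂ Z²) = (A, 0, A + C, 0, C)` with `A = s a₁ a₂`, `C = s a₁ c₂` of the same sign; `I = 12 A C + (A + C)² ≥ (A + C)²`, so `|A + C| ≤ √48 L ≤ 7 L`, and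
`|A|, |C| ≤ |A + C|`.  `F = G.sub g⁻¹`.
(The invariant: `Qu.I_sub`.)
-/

namespace MWS

/-- the product of two binary quadratic forms -/
private def RealD_m (A B C A' B' C' : ℝ) : Qu ℝ :=
  ⟨A * A', A * B' + B * A', A * C' + B * B' + C * A', B * C' + C * B', C * C'⟩

private lemma RealD_sub (A B C A' B' C' p q u v : ℝ) :
    (RealD_m A B C A' B' C').sub p q u v =
      RealD_m (A * p ^ 2 + B * (p * u) + C * u ^ 2)
        (2 * A * (p * q) + B * (p * v + q * u) + 2 * C * (u * v))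
        (A * q ^ 2 + B * (q * v) + C * v ^ 2)
        (A' * p ^ 2 + B' * (p * u) + C' * u ^ 2)
        (2 * A' * (p * q) + B' * (p * v + q * u) + 2 * C' * (u * v))
        (A' * q ^ 2 + B' * (q * v) + C' * v ^ 2) := by
  ext <;> simp only [RealD_m, Qu.sub] <;> ring

/-- a real quadratic polynomial without a real zero has negative discriminant -/
private lemma RealD_disc {b c : ℝ} (h : ∀ x : ℝ, x ^ 2 + b * x + c ≠ 0) : b ^ 2 < 4 * c := by
  by_contra hn
  have h1 : 0 ≤ b ^ 2 - 4 * c := by linarith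
  have h2 := Real.sq_sqrt h1
  apply h ((-b + Real.sqrt (b ^ 2 - 4 * c)) / 2)
  linear_combination (1 / 4) * h2

open Polynomial in
private lemma RealD_fac (F : Qu ℝ) (h0 : ∀ X Z : ℝ, F.ev X Z = 0 → X = 0 ∧ Z = 0) :
    ∃ b c b' c' : ℝ, b ^ 2 < 4 * c ∧ b' ^ 2 < 4 * c' ∧
      F = (RealD_m 1 b c 1 b' c').sm F.a := by
  have ha : F.a ≠ 0 := by
    intro h
    have h1 := h0 1 0 (by simp [Qu.ev, h])
    exact one_ne_zero h1.1
  have hx : ∀ x : ℝ, F.ev x 1 ≠ 0 := fun x h => one_ne_zero (h0 x 1 h).2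
  let f : ℝ[X] := X ^ 4 + C (F.b / F.a) * X ^ 3 + C (F.c / F.a) * X ^ 2 + C (F.d / F.a) * X +
    C (F.e / F.a)
  have hfm : f.Monic := by
    unfold f
    monicity!
  have hfd : f.natDegree = 4 := by
    unfold f
    compute_degree!
  have hev : ∀ x : ℝ, f.eval x ≠ 0 := by
    intro x h
    apply hx x
    have h1 : f.eval x = x ^ 4 + F.b / F.a * x ^ 3 + F.c / F.a * x ^ 2 + F.d / F.a * x +
        F.e / F.a := by
      simp [f]
    rw [h1] at h
    have h2 : F.ev x 1 = F.a * (x ^ 4 + F.b / F.a * x ^ 3 + F.c / F.a * x ^ 2 + F.d / F.a * x +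
        F.e / F.a) := by
      unfold Qu.ev
      field_simp
    rw [h2, h, mul_zero]
  have hu : ¬ IsUnit f := by
    intro h
    have h1 := natDegree_eq_zero_of_isUnit h
    omega
  obtain ⟨g, hgm, hgi, k, hk⟩ := exists_monic_irreducible_factor f hu
  have hg2 : g.natDegree ≤ 2 := hgi.natDegree_le_two
  have hg0 : 0 < g.natDegree := hgi.natDegree_pos
  have hkm : k.Monic := by
    rw [hk] at hfm
    exact hgm.of_mul_monic_left hfm
  have hdeg : g.natDegree + k.natDegree = 4 := by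
    rw [← hgm.natDegree_mul hkm, ← hk, hfd]
  have hgx : ∀ x : ℝ, g.eval x ≠ 0 := by
    intro x h
    apply hev x
    rw [hk, eval_mul, h, zero_mul]
  have hkx : ∀ x : ℝ, k.eval x ≠ 0 := by
    intro x h
    apply hev x
    rw [hk, eval_mul, h, mul_zero]
  have hg1 : g.natDegree ≠ 1 := by
    intro h
    obtain ⟨x, hx⟩ := exists_root_of_degree_eq_one (p := g) (by
      rw [degree_eq_natDegree hgm.ne_zero, h]; rfl)
    exact hgx x hx
  have hg : g.natDegree = 2 := by omega
  have hk2 : k.natDegree = 2 := by omega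
  have hq : ∀ p : ℝ[X], p.Monic → p.natDegree = 2 →
      p = X ^ 2 + C (p.coeff 1) * X + C (p.coeff 0) := by
    intro p hp hd
    have h1 := p.as_sum_range_C_mul_X_pow
    rw [hd] at h1
    have h2 : p.coeff 2 = 1 := by
      rw [← hd]
      exact hp.coeff_natDegree
    rw [Finset.sum_range_succ, Finset.sum_range_succ, Finset.sum_range_one, h2] at h1
    conv_lhs => rw [h1]
    simp only [map_one, pow_zero, pow_one]
    ring
  have hge := hq g hgm hg
  have hke := hq k hkm hk2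
  refine ⟨g.coeff 1, g.coeff 0, k.coeff 1, k.coeff 0, ?_, ?_, ?_⟩
  · apply RealD_disc
    intro x h
    apply hgx x
    rw [hge]
    simpa using h
  · apply RealD_disc
    intro x h
    apply hkx x
    rw [hke]
    simpa using h
  · set b := g.coeff 1 with hb
    set c := g.coeff 0 with hc
    set b' := k.coeff 1 with hb'
    set c' := k.coeff 0 with hc'
    have h1 : f = X ^ 4 + C (b + b') * X ^ 3 + C (c + b * b' + c') * X ^ 2 +
        C (b * c' + c * b') * X + C (c * c') := by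
      rw [hk, hge, hke]
      simp only [map_add, map_mul]
      ring
    have h2 : ∀ (r s t w : ℝ) (n : ℕ), (X ^ 4 + C r * X ^ 3 + C s * X ^ 2 + C t * X + C w :
        ℝ[X]).coeff n = (if n = 4 then 1 else 0) + r * (if n = 3 then 1 else 0) +
          s * (if n = 2 then 1 else 0) + t * (if n = 1 then 1 else 0) +
          (if n = 0 then w else 0) := by
      intro r s t w n
      simp only [coeff_add, coeff_C_mul, coeff_X_pow, coeff_X, coeff_C, eq_comm (a := 1) (b := n)]
    have h3 : ∀ n : ℕ, f.coeff n = (if n = 4 then 1 else 0) + (b + b') * (if n = 3 then 1 else 0) +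
          (c + b * b' + c') * (if n = 2 then 1 else 0) +
          (b * c' + c * b') * (if n = 1 then 1 else 0) + (if n = 0 then c * c' else 0) := by
      intro n
      rw [h1, h2]
    have h4 : ∀ n : ℕ, f.coeff n = (if n = 4 then 1 else 0) + F.b / F.a * (if n = 3 then 1 else 0) +
          F.c / F.a * (if n = 2 then 1 else 0) + F.d / F.a * (if n = 1 then 1 else 0) +
          (if n = 0 then F.e / F.a else 0) := by
      intro n
      exact h2 _ _ _ _ n
    have e3 : F.b / F.a = b + b' := by simpa using (h4 3).symm.trans (h3 3)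
    have e2 : F.c / F.a = c + b * b' + c' := by simpa using (h4 2).symm.trans (h3 2)
    have e1 : F.d / F.a = b * c' + c * b' := by simpa using (h4 1).symm.trans (h3 1)
    have e0 : F.e / F.a = c * c' := by simpa using (h4 0).symm.trans (h3 0)
    rw [div_eq_iff ha] at e0 e1 e2 e3
    ext
    · simp only [RealD_m, Qu.sm]; ring
    · simp only [RealD_m, Qu.sm]; rw [e3]; ring
    · simp only [RealD_m, Qu.sm]; rw [e2]; ring
    · simp only [RealD_m, Qu.sm]; rw [e1]; ring
    · simp only [RealD_m, Qu.sm]; rw [e0]; ring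

/-- a rotation which diagonalises a binary quadratic form -/
private lemma RealD_rot (A B C : ℝ) : ∃ k m : ℝ, k ^ 2 + m ^ 2 = 1 ∧
    2 * A * (k * -m) + B * (k * k + -m * m) + 2 * C * (m * k) = 0 := by
  have h1 : (0 : ℝ) ∈ Set.range (fun t : ℝ => 2 * A * (Real.cos t * -Real.sin t) +
      B * (Real.cos t * Real.cos t + -Real.sin t * Real.sin t) +
      2 * C * (Real.sin t * Real.cos t)) := by
    have e0 : 2 * A * (Real.cos 0 * -Real.sin 0) +
      B * (Real.cos 0 * Real.cos 0 + -Real.sin 0 * Real.sin 0) +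
      2 * C * (Real.sin 0 * Real.cos 0) = B := by
      rw [Real.cos_zero, Real.sin_zero]; ring
    have e1 : 2 * A * (Real.cos (Real.pi / 2) * -Real.sin (Real.pi / 2)) +
      B * (Real.cos (Real.pi / 2) * Real.cos (Real.pi / 2) +
        -Real.sin (Real.pi / 2) * Real.sin (Real.pi / 2)) +
      2 * C * (Real.sin (Real.pi / 2) * Real.cos (Real.pi / 2)) = -B := by
      rw [Real.cos_pi_div_two, Real.sin_pi_div_two]; ring
    apply mem_range_of_exists_le_of_exists_ge
    · fun_prop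
    · rcases le_total B 0 with h | h
      · exact ⟨0, by simp only [e0]; exact h⟩
      · exact ⟨Real.pi / 2, by simp only [e1]; linarith⟩
    · rcases le_total B 0 with h | h
      · exact ⟨Real.pi / 2, by simp only [e1]; linarith⟩
      · exact ⟨0, by simp only [e0]; exact h⟩
  obtain ⟨t, ht⟩ := h1
  exact ⟨Real.cos t, Real.sin t, by rw [add_comm]; exact Real.sin_sq_add_cos_sq t, ht⟩

private lemma RealD_pos {b c p u : ℝ} (h : b ^ 2 < 4 * c) (hp : ¬ (p = 0 ∧ u = 0)) :
    0 < p ^ 2 + b * (p * u) + c * u ^ 2 := by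
  have h1 : p ^ 2 + b * (p * u) + c * u ^ 2 = (p + b / 2 * u) ^ 2 + (4 * c - b ^ 2) / 4 * u ^ 2 := by
    ring
  rw [h1]
  by_cases hu : u = 0
  · subst hu
    have h2 : p ≠ 0 := fun h => hp ⟨h, rfl⟩
    have h3 : 0 < p ^ 2 := by positivity
    nlinarith
  · have h3 : 0 < u ^ 2 := by positivity
    have h4 : 0 < (4 * c - b ^ 2) / 4 * u ^ 2 := mul_pos (by linarith) h3
    have h5 := sq_nonneg (p + b / 2 * u)
    linarith

/-- two positive definite binary quadratic forms are diagonal in the same basis, the first one being a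
multiple of the sum of squares -/
private lemma RealD_diag {b c b' c' : ℝ} (h : b ^ 2 < 4 * c) (h' : b' ^ 2 < 4 * c') :
    ∃ p q u v al A C : ℝ, p * v - q * u = 1 ∧ 0 < al ∧ 0 < A ∧ 0 < C ∧
      (RealD_m 1 b c 1 b' c').sub p q u v = RealD_m al 0 al A 0 C := by
  have hD : 0 < c - b ^ 2 / 4 := by linarith
  set D := c - b ^ 2 / 4 with hDd
  set mu := Real.sqrt (Real.sqrt D) with hmu
  have hmu0 : 0 < mu := Real.sqrt_pos.2 (Real.sqrt_pos.2 hD)
  have hmu4 : mu ^ 4 = D := by
    have h1 : mu ^ 2 = Real.sqrt D := Real.sq_sqrt (Real.sqrt_nonneg D)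
    have h2 : Real.sqrt D ^ 2 = D := Real.sq_sqrt hD.le
    calc mu ^ 4 = (mu ^ 2) ^ 2 := by ring
      _ = D := by rw [h1, h2]
  set nu := mu⁻¹ with hnu
  have hmn : mu * nu = 1 := mul_inv_cancel₀ hmu0.ne'
  have e1 : c * nu ^ 2 - b ^ 2 / 4 * nu ^ 2 = mu ^ 2 := by
    have h1 : c * nu ^ 2 - b ^ 2 / 4 * nu ^ 2 = mu ^ 4 * nu ^ 2 := by
      rw [hmu4, hDd]; ring
    rw [h1]
    calc mu ^ 4 * nu ^ 2 = mu ^ 2 * (mu * nu) ^ 2 := by ring
      _ = mu ^ 2 := by rw [hmn]; ring
  -- the second form after the first substitution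
  obtain ⟨k, m, hkm, hrot⟩ := RealD_rot
    (1 * mu ^ 2 + b' * (mu * 0) + c' * 0 ^ 2)
    (2 * 1 * (mu * (-(b / 2) * nu)) + b' * (mu * nu + -(b / 2) * nu * 0) + 2 * c' * (0 * nu))
    (1 * (-(b / 2) * nu) ^ 2 + b' * (-(b / 2) * nu * nu) + c' * nu ^ 2)
  set p := mu * k + -(b / 2) * nu * m with hp
  set q := mu * -m + -(b / 2) * nu * k with hq
  set u := nu * m with hu
  set v := nu * k with hv
  have hdet : p * v - q * u = 1 := by
    rw [hp, hq, hu, hv]
    linear_combination (k ^ 2 + m ^ 2) * hmn + hkm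
  have hpu : ¬ (p = 0 ∧ u = 0) := by
    rintro ⟨h1, h2⟩
    rw [h1, h2] at hdet
    norm_num at hdet
  have hqv : ¬ (q = 0 ∧ v = 0) := by
    rintro ⟨h1, h2⟩
    rw [h1, h2] at hdet
    norm_num at hdet
  refine ⟨p, q, u, v, mu ^ 2, p ^ 2 + b' * (p * u) + c' * u ^ 2,
    q ^ 2 + b' * (q * v) + c' * v ^ 2, hdet, by positivity, RealD_pos h' hpu, RealD_pos h' hqv, ?_⟩
  rw [RealD_sub]
  have f1 : 1 * p ^ 2 + b * (p * u) + c * u ^ 2 = mu ^ 2 := by
    rw [hp, hu]
    linear_combination (m ^ 2) * e1 + mu ^ 2 * hkm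
  have f2 : 2 * 1 * (p * q) + b * (p * v + q * u) + 2 * c * (u * v) = 0 := by
    rw [hp, hq, hu, hv]
    linear_combination (2 * k * m) * e1
  have f3 : 1 * q ^ 2 + b * (q * v) + c * v ^ 2 = mu ^ 2 := by
    rw [hq, hv]
    linear_combination (k ^ 2) * e1 + mu ^ 2 * hkm
  have f4 : 2 * 1 * (p * q) + b' * (p * v + q * u) + 2 * c' * (u * v) = 0 := by
    rw [hp, hq, hu, hv]
    linear_combination hrot
  rw [f1, f2, f3, f4, one_mul, one_mul]

theorem real_definite (F : Qu ℝ) (L : ℝ) (hL : 0 < L) (hI : |F.I| ≤ 48 * L ^ 2)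
    (h0 : ∀ X Z : ℝ, F.ev X Z = 0 → X = 0 ∧ Z = 0) :
    ∃ (G : Qu ℝ) (p q u v : ℝ), p * v - q * u = 1 ∧ F = G.sub p q u v ∧
      |G.a| ≤ 100 * L ∧ |G.b| ≤ 100 * L ∧ |G.c| ≤ 100 * L ∧ |G.d| ≤ 100 * L ∧ |G.e| ≤ 100 * L := by
  obtain ⟨b, c, b', c', h1, h2, hF⟩ := RealD_fac F h0
  obtain ⟨p, q, u, v, al, A, C, hdet, hal, hA, hC, hs⟩ := RealD_diag h1 h2
  set s := F.a with hs'
  have hG : F.sub p q u v = (RealD_m al 0 al A 0 C).sm s := by
    conv_lhs => rw [hF]
    rw [Qu.sub_sm, hs]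
  have hinv : F = ((RealD_m al 0 al A 0 C).sm s).sub v (-q) (-u) p := by
    rw [← hG, Qu.sub_sub]
    have g1 : p * v + q * -u = 1 := by linear_combination hdet
    have g2 : p * -q + q * p = 0 := by ring
    have g3 : u * v + v * -u = 0 := by ring
    have g4 : u * -q + v * p = 1 := by linear_combination hdet
    rw [g1, g2, g3, g4, Qu.sub_id]
  have hIG : ((RealD_m al 0 al A 0 C).sm s).I = F.I := by
    rw [← hG, Qu.I_sub, hdet, one_pow, one_mul]
  have hval : F.I = 12 * (s * (al * A)) * (s * (al * C)) + (s * (al * A) + s * (al * C)) ^ 2 := by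
    rw [← hIG]
    simp only [RealD_m, Qu.sm, Qu.I]
    ring
  set x := s * (al * A) with hx
  set y := s * (al * C) with hy
  have hxy : 0 ≤ x * y := by
    have h3 : x * y = s ^ 2 * (al * A * (al * C)) := by rw [hx, hy]; ring
    rw [h3]
    positivity
  have hle : (x + y) ^ 2 ≤ (7 * L) ^ 2 := by
    have h3 := (abs_le.1 hI).2
    rw [hval] at h3
    nlinarith [sq_nonneg L]
  have hle1 : |x + y| ≤ 7 * L := abs_le_of_sq_le_sq hle (by positivity)
  have hlx : |x| ≤ 7 * L := by
    refine abs_le_of_sq_le_sq (le_trans ?_ hle) (by positivity)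
    nlinarith [sq_nonneg y]
  have hly : |y| ≤ 7 * L := by
    refine abs_le_of_sq_le_sq (le_trans ?_ hle) (by positivity)
    nlinarith [sq_nonneg x]
  refine ⟨(RealD_m al 0 al A 0 C).sm s, v, -q, -u, p, by linear_combination hdet, hinv,
    ?_, ?_, ?_, ?_, ?_⟩
  · have h3 : ((RealD_m al 0 al A 0 C).sm s).a = x := by simp only [RealD_m, Qu.sm, hx]
    rw [h3]; linarith
  · have h3 : ((RealD_m al 0 al A 0 C).sm s).b = 0 := by simp only [RealD_m, Qu.sm]; ring
    rw [h3, abs_zero]; positivity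
  · have h3 : ((RealD_m al 0 al A 0 C).sm s).c = x + y := by
      simp only [RealD_m, Qu.sm, hx, hy]; ring
    rw [h3]; linarith
  · have h3 : ((RealD_m al 0 al A 0 C).sm s).d = 0 := by simp only [RealD_m, Qu.sm]; ring
    rw [h3, abs_zero]; positivity
  · have h3 : ((RealD_m al 0 al A 0 C).sm s).e = y := by simp only [RealD_m, Qu.sm, hy]
    rw [h3]; linarith

end MWS
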