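import Pool.Agent.Lib.MP_10e784_agBR.Defs

/-!
LEAF RealZ.  A real binary quartic with a real zero `(X₀, Z₀) ≠ (0, 0)`, invariants `|I| ≤ 48 L²`, `|J| ≤ 1728 L³`, and `4 I³ ≠ J²`, is `G ∘ g`, `g` of determinant 1, all coefficients of `G` at most `100 L`.
Step 1: `M₁` of determinant 1 with first column `(X₀, Z₀)` (`second column (-Z₀, X₀)/(X₀² + Z₀²)`): `F₁ = F.sub M₁` has `a = F.ev X₀ Z₀ = 0`.  `I`, `J` are unchanged (`Qu.I_sub`, `Qu.J_sub`).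
With `a = 0`: `I = - 3 b d + c²`, `J = 9 b c d - 27 e b² - 2 c³`; if `b = 0` then `4 I³ = J²`: contradiction, so `b ≠ 0`.
Step 2: `F₂ = F₁.sub 1 s 0 1` with `s = - c/(3 b)`: `a = 0`, `b` unchanged, `c = 0`.
Step 3: `F₃ = F₂.sub μ 0 0 μ⁻¹`, `μ = sqrt (L / |b|)`: `a = 0`, `b₃ = b μ²`, so `|b₃| = L`, `c = 0`.  Then `I = - 3 b₃ d₃`, `|d₃| = |I|/(3 L) ≤ 16 L`, `J = - 27 e₃ b₃²`, `|e₃| = |J|/(27 L²) ≤ 64 L`.
Step 4: `F = F₃.sub (M₁ M₂ M₃)⁻¹` (`Qu.sub_sub`, `Qu.sub_id`; the inverse of `(p q; u v)` of determinant 1 is `(v, -q; -u, p)`).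
-/

namespace MWS

private def RealZ_E (F G : Qu ℝ) : Prop := ∃ p q u v : ℝ, p * v - q * u = 1 ∧ F = G.sub p q u v

private theorem RealZ_trans {F G H : Qu ℝ} (h1 : RealZ_E F G) (h2 : RealZ_E G H) : RealZ_E F H := by
  obtain ⟨k, l, m, n, hd, e1⟩ := h1
  obtain ⟨p, q, u, v, hd', e2⟩ := h2
  refine ⟨p * k + q * m, p * l + q * n, u * k + v * m, u * l + v * n, ?_, ?_⟩
  · have : (p * k + q * m) * (u * l + v * n) - (p * l + q * n) * (u * k + v * m) =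
        (p * v - q * u) * (k * n - l * m) := by ring
    rw [this, hd, hd', mul_one]
  · rw [← Qu.sub_sub, ← e2]
    exact e1

private theorem RealZ_sub (F : Qu ℝ) {p q u v : ℝ} (h : p * v - q * u = 1) : RealZ_E F (F.sub p q u v) := by
  refine ⟨v, -q, -u, p, by rw [← h]; ring, ?_⟩
  rw [Qu.sub_sub]
  have e1 : p * v + q * -u = 1 := by rw [← h]; ring
  have e2 : p * -q + q * p = 0 := by ring
  have e3 : u * v + v * -u = 0 := by ring
  have e4 : u * -q + v * p = 1 := by rw [← h]; ring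
  rw [e1, e2, e3, e4, Qu.sub_id]

theorem real_zero (F : Qu ℝ) (L : ℝ) (hL : 0 < L) (hI : |F.I| ≤ 48 * L ^ 2)
    (hJ : |F.J| ≤ 1728 * L ^ 3) (hd : 4 * F.I ^ 3 ≠ F.J ^ 2) (X Z : ℝ) (hXZ : X ≠ 0 ∨ Z ≠ 0)
    (h0 : F.ev X Z = 0) :
    ∃ (G : Qu ℝ) (p q u v : ℝ), p * v - q * u = 1 ∧ F = G.sub p q u v ∧
      |G.a| ≤ 100 * L ∧ |G.b| ≤ 100 * L ∧ |G.c| ≤ 100 * L ∧ |G.d| ≤ 100 * L ∧ |G.e| ≤ 100 * L := by
  have hN : X ^ 2 + Z ^ 2 ≠ 0 := by
    rcases hXZ with h | h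
    · have := pow_pos (abs_pos.2 h) 2
      rw [sq_abs] at this
      positivity
    · have := pow_pos (abs_pos.2 h) 2
      rw [sq_abs] at this
      positivity
  -- step 1
  have hdet1 : X * (X / (X ^ 2 + Z ^ 2)) - (-Z / (X ^ 2 + Z ^ 2)) * Z = 1 := by
    field_simp
    ring
  obtain ⟨F1, hF1⟩ : ∃ F1, F1 = F.sub X (-Z / (X ^ 2 + Z ^ 2)) Z (X / (X ^ 2 + Z ^ 2)) := ⟨_, rfl⟩
  have hE1 : RealZ_E F F1 := by
    rw [hF1]
    exact RealZ_sub F hdet1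
  have ha1 : F1.a = 0 := by
    rw [hF1, Qu.sub_a]
    exact h0
  have hI1 : F1.I = F.I := by
    rw [hF1, Qu.I_sub, hdet1, one_pow, one_mul]
  have hJ1 : F1.J = F.J := by
    rw [hF1, Qu.J_sub, hdet1, one_pow, one_mul]
  have hb1 : F1.b ≠ 0 := by
    intro hb
    apply hd
    rw [← hI1, ← hJ1]
    simp only [Qu.I, Qu.J, ha1, hb]
    ring
  -- step 2
  obtain ⟨F2, hF2⟩ : ∃ F2, F2 = F1.sub 1 (-F1.c / (3 * F1.b)) 0 1 := ⟨_, rfl⟩
  have hdet2 : (1 : ℝ) * 1 - (-F1.c / (3 * F1.b)) * 0 = 1 := by ring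
  have hE2 : RealZ_E F1 F2 := by
    rw [hF2]
    exact RealZ_sub F1 hdet2
  have ha2 : F2.a = 0 := by
    rw [hF2]
    simp only [Qu.sub, ha1]
    ring
  have hb2 : F2.b = F1.b := by
    rw [hF2]
    simp only [Qu.sub, ha1]
    ring
  have hc2 : F2.c = 0 := by
    rw [hF2]
    simp only [Qu.sub, ha1]
    field_simp
    ring
  have hI2 : F2.I = F.I := by
    rw [hF2, Qu.I_sub, hdet2, one_pow, one_mul, hI1]
  have hJ2 : F2.J = F.J := by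
    rw [hF2, Qu.J_sub, hdet2, one_pow, one_mul, hJ1]
  -- step 3
  have hb0 : 0 < |F1.b| := abs_pos.2 hb1
  obtain ⟨μ, hμ⟩ : ∃ μ, μ = √(L / |F1.b|) := ⟨_, rfl⟩
  have hμ0 : 0 < μ := by
    rw [hμ]
    exact Real.sqrt_pos.2 (div_pos hL hb0)
  have hμ2 : μ ^ 2 = L / |F1.b| := by
    rw [hμ]
    exact Real.sq_sqrt (div_pos hL hb0).le
  have hdet3 : μ * μ⁻¹ - 0 * 0 = 1 := by
    rw [mul_inv_cancel₀ hμ0.ne']
    ring
  obtain ⟨G, hG⟩ : ∃ G, G = F2.sub μ 0 0 μ⁻¹ := ⟨_, rfl⟩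
  have hE3 : RealZ_E F2 G := by
    rw [hG]
    exact RealZ_sub F2 hdet3
  have ha3 : G.a = 0 := by
    rw [hG]
    simp only [Qu.sub, ha2]
    ring
  have hb3 : G.b = F1.b * μ ^ 2 := by
    rw [hG]
    simp only [Qu.sub, ha2, hb2]
    field_simp
    ring
  have hc3 : G.c = 0 := by
    rw [hG]
    simp only [Qu.sub, ha2, hc2]
    ring
  have hI3 : G.I = F.I := by
    rw [hG, Qu.I_sub, hdet3, one_pow, one_mul, hI2]
  have hJ3 : G.J = F.J := by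
    rw [hG, Qu.J_sub, hdet3, one_pow, one_mul, hJ2]
  have hbL : |G.b| = L := by
    rw [hb3, abs_mul, hμ2, abs_of_pos (div_pos hL hb0)]
    field_simp
  have hId : F.I = -3 * (G.b * G.d) := by
    rw [← hI3]
    simp only [Qu.I, ha3, hc3]
    ring
  have hJe : F.J = -27 * (G.e * G.b ^ 2) := by
    rw [← hJ3]
    simp only [Qu.J, ha3, hc3]
    ring
  have hd3 : |G.d| ≤ 16 * L := by
    rw [hId, abs_mul, abs_mul, hbL] at hI
    have h3 : |(-3 : ℝ)| = 3 := by norm_num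
    rw [h3] at hI
    have : L * |G.d| ≤ L * (16 * L) := by nlinarith
    exact le_of_mul_le_mul_left this hL
  have he3 : |G.e| ≤ 64 * L := by
    rw [hJe, abs_mul, abs_mul, abs_pow, hbL] at hJ
    have h3 : |(-27 : ℝ)| = 27 := by norm_num
    rw [h3] at hJ
    have : L ^ 2 * |G.e| ≤ L ^ 2 * (64 * L) := by nlinarith
    exact le_of_mul_le_mul_left this (by positivity)
  obtain ⟨p, q, u, v, hdet, hFG⟩ := RealZ_trans (RealZ_trans hE1 hE2) hE3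
  refine ⟨G, p, q, u, v, hdet, hFG, ?_, ?_, ?_, ?_, ?_⟩
  · rw [ha3, abs_zero]
    positivity
  · rw [hbL]
    linarith
  · rw [hc3, abs_zero]
    positivity
  · linarith
  · linarith

end MWS
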