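import Pool.Agent.Lib.MP_10e784_agBR.Gauss
import Pool.Agent.Lib.MP_10e784_agBR.RealZ
import Pool.Agent.Lib.MP_10e784_agBR.RealD
import Pool.Agent.Lib.MP_10e784_agBR.Bound

/-!
LEAF Red.  Reduction of an integral quartic.
`F.cast ℝ` has a real zero (`real_zero`) or not (`real_definite`): `F.cast ℝ = G.sub p q u v`, coefficients of `G` at most `100 L`.  `gauss_red` gives `k l m n`; `(F.sub k l m n).cast ℝ = (F.cast ℝ).sub k l m n`
(`Qu.cast_sub`) `= G.sub p' q' u' v'` (`Qu.sub_sub`) with the new matrix, of determinant `(p v - q u)(k n - l m) = 1`: `bound_red`.  (`Qu.cast_I`, `Qu.cast_J` for the invariants.)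
-/

namespace MWS

theorem exists_reduced (F : Qu ℤ) (L : ℝ) (hL : 0 < L) (hI : |(F.I : ℝ)| ≤ 48 * L ^ 2)
    (hJ : |(F.J : ℝ)| ≤ 1728 * L ^ 3) (hd : 4 * F.I ^ 3 ≠ F.J ^ 2) :
    ∃ k l m n : ℤ, k * n - l * m = 1 ∧
      Rg L (F.sub k l m n).a (F.sub k l m n).b (F.sub k l m n).c (F.sub k l m n).d
        (F.sub k l m n).e := by
  have hI' : |(F.cast ℝ).I| ≤ 48 * L ^ 2 := by rw [Qu.cast_I]; exact hI
  have hJ' : |(F.cast ℝ).J| ≤ 1728 * L ^ 3 := by rw [Qu.cast_J]; exact hJ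
  have hd' : 4 * (F.cast ℝ).I ^ 3 ≠ (F.cast ℝ).J ^ 2 := by
    rw [Qu.cast_I, Qu.cast_J]
    intro h
    exact hd (by exact_mod_cast h)
  have key : ∃ (G : Qu ℝ) (p q u v : ℝ), p * v - q * u = 1 ∧ F.cast ℝ = G.sub p q u v ∧
      |G.a| ≤ 100 * L ∧ |G.b| ≤ 100 * L ∧ |G.c| ≤ 100 * L ∧ |G.d| ≤ 100 * L ∧
        |G.e| ≤ 100 * L := by
    by_cases hz : ∃ X Z : ℝ, (X ≠ 0 ∨ Z ≠ 0) ∧ (F.cast ℝ).ev X Z = 0
    · obtain ⟨X, Z, hXZ, h0⟩ := hz
      exact real_zero _ L hL hI' hJ' hd' X Z hXZ h0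
    · refine real_definite _ L hL hI' ?_
      intro X Z h0
      by_contra hc
      refine hz ⟨X, Z, ?_, h0⟩
      by_contra hn
      rw [not_or, not_not, not_not] at hn
      exact hc hn
  obtain ⟨G, p, q, u, v, hdet, hF, ha, hb, hc, hdd, he⟩ := key
  obtain ⟨k, l, m, n, hkn, h1, h2⟩ := gauss_red p q u v hdet
  refine ⟨k, l, m, n, hkn, ?_⟩
  have hkn' : (k : ℝ) * n - l * m = 1 := by exact_mod_cast hkn
  have hdet2 : (p * k + q * m) * (u * l + v * n) - (p * l + q * n) * (u * k + v * m) = 1 := by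
    have e : (p * k + q * m) * (u * l + v * n) - (p * l + q * n) * (u * k + v * m) =
        (p * v - q * u) * ((k : ℝ) * n - l * m) := by ring
    rw [e, hdet, hkn', one_mul]
  have hmain := bound_red G L hL ha hb hc hdd he _ _ _ _ hdet2 h1 h2
  have hsub : (F.sub k l m n).cast ℝ =
      G.sub (p * k + q * m) (p * l + q * n) (u * k + v * m) (u * l + v * n) := by
    rw [Qu.cast_sub, hF, Qu.sub_sub]
  rw [← hsub] at hmain
  exact hmain

end MWS
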