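import Pool.Agent.Lib.MP_10e784_agBS.Defs
import Pool.Agent.Lib.MP_10e784_agBR.Mod
import Pool.Agent.Lib.MP_10e784_agBR.Cls
import Pool.Agent.Lib.MP_10e784_agBR.Red
import Pool.Agent.Lib.MP_10e784_agBR.Cnt

/-!
LEAF Few.  A curve with few reduced quartics has few classes modulo 2.
(`Few` is defined in Lib/MP_10e784_agBS/Defs.lean.)  Let `S` be the finite set of the statement, `S.ncard + 1 ≤ 2 ^ t`.
Every point `P = (x, y)` which is not in `2 E(ℚ)` has a form in `S`: `exists_model` gives `F` integral with `Rel (fP α x y) (F.cast ℚ)`; `F.I = - 48 α`, `F.J = - 1728 β` (`Rel.I_eq`, `Rel.J_eq`,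
`(fP α x y).I = - 48 α`, `(fP α x y).J = - 1728 β` by the equation, `Qu.cast_I`, `Int.cast_injective`), `4 I³ - J² = - 110592 (4 α³ + 27 β²) ≠ 0`; `exists_reduced` gives `G = F.sub k l m n` in the region, with
the same invariants (`Qu.I_sub`), and `Rel (fP α x y) (G.cast ℚ)` (`Rel.trans`, `Rel.of_SL`); `G.a ≠ 0` by `two_of_rel`.
For every `G` in `S` choose a point `P_G = (x, y)` with `Rel (fP α x y) (G.cast ℚ)` if there is one, else `P_G = 0`.  The family `0`, `P_G` (`G` in `S`) has at most `2 ^ t` members; enumerate it by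
`r : Fin (2 ^ t) → Pt ℚ α β` (a surjection from `Fin (2 ^ t)` onto the nonempty finite set `{0} ∪ {P_G}`).
Every `P`: if `P = 2 • U` (in particular `P = 0`) then `P = 0 + 2 • U`.  Otherwise `P = (x', y')`, `Rel (fP α x' y') (G.cast ℚ)` for a `G` in `S`, `P_G = (x, y)` with `Rel (fP α x y) (G.cast ℚ)`, so
`Rel (fP α x y) (fP α x' y')` (`Rel.trans`, `Rel.symm`) and `cls_of_rel` gives `P = P_G + 2 • U`.
-/

namespace MWS

private theorem Few_enum {X : Type*} [DecidableEq X] (x₀ : X) (T : Finset X) (N : ℕ)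
    (h : T.card ≤ N) : ∃ r : Fin N → X, ∀ x ∈ T, ∃ i, r i = x := by
  refine ⟨fun i => if hi : (i : ℕ) < T.card then (T.equivFin.symm ⟨i, hi⟩).1 else x₀, ?_⟩
  intro x hx
  have h1 : ((T.equivFin ⟨x, hx⟩ : Fin T.card) : ℕ) < T.card := (T.equivFin ⟨x, hx⟩).2
  refine ⟨⟨(T.equivFin ⟨x, hx⟩ : Fin T.card), lt_of_lt_of_le h1 h⟩, ?_⟩
  simp only [h1, dif_pos, Fin.eta, Equiv.symm_apply_apply]

private theorem Few_I (α x y : ℚ) : (fP α x y).I = -48 * α := by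
  simp only [fP, Qu.I]
  ring

private theorem Few_J (α β x y : ℚ) (h : y ^ 2 = x ^ 3 + α * x + β) :
    (fP α x y).J = -1728 * β := by
  simp only [fP, Qu.J]
  linear_combination (-1728) * h

/-- a reduced integral form for a point which is not twice a point -/
private theorem Few_form (H : ℕ) (hH : 1 ≤ H) (α β : ℤ) (hα : |α| ≤ (H : ℤ) ^ 2)
    (hβ : |β| ≤ (H : ℤ) ^ 3) (hd : dsc α β ≠ 0) (x y : ℚ)
    (h : (EW ℚ α β).toAffine.Nonsingular x y)
    (hn : ¬ ∃ U : Pt ℚ α β, (.some x y h : Pt ℚ α β) = 2 • U) :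
    ∃ G : Qu ℤ, ((G.a ≠ 0 ∧ Rg H G.a G.b G.c G.d G.e) ∧ G.I = -48 * α ∧ G.J = -1728 * β) ∧
      Rel (fP (α : ℚ) x y) (G.cast ℚ) := by
  have he : y ^ 2 = x ^ 3 + (α : ℚ) * x + (β : ℚ) := (EW_eqn α β x y).1 h.1
  obtain ⟨F, hF⟩ := exists_model α β x y he
  have hI : F.I = -48 * α := by
    have h1 := hF.I_eq
    rw [Few_I, Qu.cast_I] at h1
    exact_mod_cast h1
  have hJ : F.J = -1728 * β := by
    have h1 := hF.J_eq
    rw [Few_J _ _ _ _ he, Qu.cast_J] at h1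
    exact_mod_cast h1
  have hH0 : (0 : ℝ) < (H : ℝ) := by exact_mod_cast hH
  have hα' : |(α : ℝ)| ≤ (H : ℝ) ^ 2 := by exact_mod_cast hα
  have hβ' : |(β : ℝ)| ≤ (H : ℝ) ^ 3 := by exact_mod_cast hβ
  have hI' : |(F.I : ℝ)| ≤ 48 * (H : ℝ) ^ 2 := by
    rw [hI]
    push_cast
    rw [abs_mul]
    have h48 : |(-48 : ℝ)| = 48 := by norm_num
    rw [h48]
    exact mul_le_mul_of_nonneg_left hα' (by norm_num)
  have hJ' : |(F.J : ℝ)| ≤ 1728 * (H : ℝ) ^ 3 := by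
    rw [hJ]
    push_cast
    rw [abs_mul]
    have h48 : |(-1728 : ℝ)| = 1728 := by norm_num
    rw [h48]
    exact mul_le_mul_of_nonneg_left hβ' (by norm_num)
  have hD : 4 * F.I ^ 3 ≠ F.J ^ 2 := by
    intro hc
    apply hd
    unfold dsc
    rw [hI, hJ] at hc
    have h1 : (-110592 : ℤ) * (4 * α ^ 3 + 27 * β ^ 2) = 0 := by linear_combination hc
    exact (mul_eq_zero.1 h1).resolve_left (by norm_num)
  obtain ⟨k, l, m, n, hdet, hR⟩ := exists_reduced F H hH0 hI' hJ' hD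
  have hrel : Rel (fP (α : ℚ) x y) ((F.sub k l m n).cast ℚ) := hF.trans (Rel.of_SL hdet)
  refine ⟨F.sub k l m n, ⟨⟨?_, hR⟩, ?_, ?_⟩, hrel⟩
  · intro h0
    apply hn
    refine two_of_rel hd x y h _ hrel ?_
    show (((F.sub k l m n).a : ℤ) : ℚ) = 0
    rw [h0]
    norm_num
  · rw [Qu.I_sub, hdet, hI]
    ring
  · rw [Qu.J_sub, hdet, hJ]
    ring

theorem few_of_card (H : ℕ) (hH : 1 ≤ H) (α β : ℤ) (hα : |α| ≤ (H : ℤ) ^ 2)
    (hβ : |β| ≤ (H : ℤ) ^ 3) (hd : dsc α β ≠ 0) (t : ℕ)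
    (h : ({F : Qu ℤ | (F.a ≠ 0 ∧ Rg H F.a F.b F.c F.d F.e) ∧ F.I = -48 * α ∧ F.J = -1728 * β} :
      Set (Qu ℤ)).ncard + 1 ≤ 2 ^ t) : Few α β t := by
  classical
  obtain ⟨C, -, hC⟩ := count_region
  have hfin : ({F : Qu ℤ | (F.a ≠ 0 ∧ Rg H F.a F.b F.c F.d F.e) ∧ F.I = -48 * α ∧
      F.J = -1728 * β} : Set (Qu ℤ)).Finite :=
    (hC H hH).1.subset fun F hF => hF.1
  set S : Set (Qu ℤ) := {F : Qu ℤ | (F.a ≠ 0 ∧ Rg H F.a F.b F.c F.d F.e) ∧ F.I = -48 * α ∧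
      F.J = -1728 * β} with hS
  -- the chosen points
  let Good : Qu ℤ → Pt ℚ α β → Prop := fun G P =>
    ∃ (x y : ℚ) (hh : (EW ℚ α β).toAffine.Nonsingular x y),
      P = .some x y hh ∧ Rel (fP (α : ℚ) x y) (G.cast ℚ)
  let pt : Qu ℤ → Pt ℚ α β := fun G => if hG : ∃ P, Good G P then hG.choose else 0
  have hpt : ∀ G, (∃ P, Good G P) → Good G (pt G) := by
    intro G hG
    have h1 : pt G = hG.choose := dif_pos hG
    rw [h1]
    exact hG.choose_spec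
  have hcard : (insert (0 : Pt ℚ α β) (hfin.toFinset.image pt)).card ≤ 2 ^ t := by
    refine le_trans (Finset.card_insert_le _ _) (le_trans ?_ h)
    have h1 : (hfin.toFinset.image pt).card ≤ hfin.toFinset.card := Finset.card_image_le
    have h2 : S.ncard = hfin.toFinset.card := Set.ncard_eq_toFinset_card S hfin
    rw [h2]
    exact Nat.add_le_add_right h1 1
  obtain ⟨r, hr⟩ := Few_enum (0 : Pt ℚ α β) _ _ hcard
  refine ⟨r, fun P => ?_⟩
  by_cases h2 : ∃ U : Pt ℚ α β, P = 2 • U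
  · obtain ⟨U, hU⟩ := h2
    obtain ⟨i, hi⟩ := hr 0 (Finset.mem_insert_self _ _)
    exact ⟨i, U, by rw [hi, zero_add, hU]⟩
  · match P, h2 with
    | .zero, h2 => exact absurd ⟨0, (smul_zero 2).symm⟩ h2
    | .some x' y' h', h2 =>
      obtain ⟨G, hG, hrel⟩ := Few_form H hH α β hα hβ hd x' y' h' h2
      obtain ⟨x, y, hh, hP, hrel'⟩ := hpt G ⟨_, x', y', h', rfl, hrel⟩
      have hmem : pt G ∈ insert (0 : Pt ℚ α β) (hfin.toFinset.image pt) :=
        Finset.mem_insert_of_mem (Finset.mem_image_of_mem pt (hfin.mem_toFinset.2 hG))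
      obtain ⟨i, hi⟩ := hr _ hmem
      obtain ⟨U, hU⟩ := cls_of_rel hd x y hh x' y' h' (hrel'.trans hrel.symm)
      exact ⟨i, U, by rw [hi, hP]; exact hU⟩

end MWS
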