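import Mathlib

/-!
LEAF Gauss.  Reduction of a basis of a lattice in the plane of determinant 1.
The basis is `(p, u)`, `(q, v)`; the new basis is `k (p,u) + m (q,v)`, `l (p,u) + n (q,v)`.
Put `z = (q + i v)/(p + i u)`; its imaginary part is `(p v - q u)/(p² + u²) = 1/(p² + u²) > 0`.  By `ModularGroup.exists_smul_mem_fd` there is `g = (A B; C D)` in `SL(2, ℤ)` with `g • z` in the
fundamental domain: `1 ≤ normSq (g • z)` and `|re (g • z)| ≤ 1/2`.  `g • z = (A z + B)/(C z + D) = (A (q + i v) + B (p + i u))/(C (q + i v) + D (p + i u))`.  Take `k = D, m = C, l = B, n = A`: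
`k n - l m = A D - B C = 1`; with `(p', u') = k (p,u) + m (q,v)`, `(q', v') = l (p,u) + n (q,v)`: `g • z = (q' + i v')/(p' + i u')`, `normSq = (q'² + v'²)/(p'² + u'²)`, real part
`(p' q' + u' v')/(p'² + u'²)`.
(Other proof without the modular group: among the bases with first vector of length at most `L` there are finitely many first vectors; take a shortest one, then translate the second vector.)
-/

namespace MWS

theorem gauss_red (p q u v : ℝ) (h : p * v - q * u = 1) :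
    ∃ k l m n : ℤ, k * n - l * m = 1 ∧
      (p * k + q * m) ^ 2 + (u * k + v * m) ^ 2 ≤ (p * l + q * n) ^ 2 + (u * l + v * n) ^ 2 ∧
      2 * |(p * k + q * m) * (p * l + q * n) + (u * k + v * m) * (u * l + v * n)| ≤
        (p * k + q * m) ^ 2 + (u * k + v * m) ^ 2 := by
  have hpu : 0 < p ^ 2 + u ^ 2 := by
    by_contra hc
    have h1 : p ^ 2 + u ^ 2 ≤ 0 := not_lt.1 hc
    have hp : p = 0 := by nlinarith [sq_nonneg p, sq_nonneg u]
    have hu : u = 0 := by nlinarith [sq_nonneg p, sq_nonneg u]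
    rw [hp, hu] at h
    norm_num at h
  have hM0 : (⟨p, u⟩ : ℂ) ≠ 0 := by
    intro hc
    have h1 := congrArg Complex.re hc
    have h2 := congrArg Complex.im hc
    simp only [Complex.zero_re, Complex.zero_im] at h1 h2
    rw [h1, h2] at hpu
    norm_num at hpu
  have him : 0 < ((⟨q, v⟩ : ℂ) / (⟨p, u⟩ : ℂ)).im := by
    rw [Complex.div_im]
    have e : Complex.normSq (⟨p, u⟩ : ℂ) = p ^ 2 + u ^ 2 := by
      rw [Complex.normSq_mk]; ring
    rw [e]
    have : v * p / (p ^ 2 + u ^ 2) - q * u / (p ^ 2 + u ^ 2) = 1 / (p ^ 2 + u ^ 2) := by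
      rw [← sub_div, ← h]
      ring
    show 0 < v * p / (p ^ 2 + u ^ 2) - q * u / (p ^ 2 + u ^ 2)
    rw [this]
    positivity
  obtain ⟨g, hg1, hg2⟩ := ModularGroup.exists_smul_mem_fd (⟨(⟨q, v⟩ : ℂ) / (⟨p, u⟩ : ℂ), him⟩ : UpperHalfPlane)
  have hdet : g 0 0 * g 1 1 - g 0 1 * g 1 0 = 1 := by
    have := g.det_coe
    rwa [Matrix.det_fin_two] at this
  set A : ℤ := g 0 0 with hA
  set B : ℤ := g 0 1 with hB
  set C : ℤ := g 1 0 with hC
  set D : ℤ := g 1 1 with hD
  set M : ℂ := ⟨p * D + q * C, u * D + v * C⟩ with hM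
  set N : ℂ := ⟨p * B + q * A, u * B + v * A⟩ with hN
  have hM1 : M ≠ 0 := by
    intro hc
    have h1 := congrArg Complex.re hc
    have h2 := congrArg Complex.im hc
    simp only [hM, Complex.zero_re, Complex.zero_im] at h1 h2
    have h3 : (D : ℝ) = 0 := by
      have : (D : ℝ) * (p * v - q * u) = v * (p * D + q * C) - q * (u * D + v * C) := by ring
      rw [h, h1, h2] at this
      linarith
    have h4 : (C : ℝ) = 0 := by
      have : (C : ℝ) * (p * v - q * u) = p * (u * D + v * C) - u * (p * D + q * C) := by ring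
      rw [h, h1, h2] at this
      linarith
    have h5 : D = 0 := by exact_mod_cast h3
    have h6 : C = 0 := by exact_mod_cast h4
    rw [h5, h6] at hdet
    norm_num at hdet
  have hcoe : ((g • (⟨(⟨q, v⟩ : ℂ) / (⟨p, u⟩ : ℂ), him⟩ : UpperHalfPlane) : UpperHalfPlane) : ℂ) = N / M := by
    rw [UpperHalfPlane.specialLinearGroup_apply]
    show ((algebraMap ℤ ℝ A : ℝ) * ((⟨q, v⟩ : ℂ) / (⟨p, u⟩ : ℂ)) + (algebraMap ℤ ℝ B : ℝ)) /
      ((algebraMap ℤ ℝ C : ℝ) * ((⟨q, v⟩ : ℂ) / (⟨p, u⟩ : ℂ)) + (algebraMap ℤ ℝ D : ℝ)) = N / M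
    have e1 : ((algebraMap ℤ ℝ A : ℝ) : ℂ) * ((⟨q, v⟩ : ℂ) / (⟨p, u⟩ : ℂ)) + ((algebraMap ℤ ℝ B : ℝ) : ℂ) =
        N / (⟨p, u⟩ : ℂ) := by
      rw [eq_div_iff hM0, add_mul, mul_assoc, div_mul_cancel₀ _ hM0]
      apply Complex.ext <;> simp [hN] <;> ring
    have e2 : ((algebraMap ℤ ℝ C : ℝ) : ℂ) * ((⟨q, v⟩ : ℂ) / (⟨p, u⟩ : ℂ)) + ((algebraMap ℤ ℝ D : ℝ) : ℂ) =
        M / (⟨p, u⟩ : ℂ) := by
      rw [eq_div_iff hM0, add_mul, mul_assoc, div_mul_cancel₀ _ hM0]
      apply Complex.ext <;> simp [hM] <;> ring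
    rw [e1, e2, div_div_div_cancel_right₀ hM0]
  have hMpos : 0 < Complex.normSq M := Complex.normSq_pos.2 hM1
  have hMe : Complex.normSq M = (p * D + q * C) ^ 2 + (u * D + v * C) ^ 2 := by
    rw [hM, Complex.normSq_mk]; ring
  have hNe : Complex.normSq N = (p * B + q * A) ^ 2 + (u * B + v * A) ^ 2 := by
    rw [hN, Complex.normSq_mk]; ring
  refine ⟨D, B, C, A, by linarith, ?_, ?_⟩
  · rw [hcoe, Complex.normSq_div, le_div_iff₀ hMpos, one_mul] at hg1
    rw [← hMe, ← hNe]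
    exact hg1
  · have e3 : (g • (⟨(⟨q, v⟩ : ℂ) / (⟨p, u⟩ : ℂ), him⟩ : UpperHalfPlane) : UpperHalfPlane).re = (N / M).re := by
      rw [← hcoe]
      rfl
    rw [e3, Complex.div_re, ← add_div, abs_div, abs_of_pos hMpos, div_le_iff₀ hMpos] at hg2
    have e4 : N.re * M.re + N.im * M.im = (p * D + q * C) * (p * B + q * A) + (u * D + v * C) * (u * B + v * A) := by
      simp only [hM, hN]
      ring
    rw [e4] at hg2
    rw [← hMe]
    linarith

end MWS
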