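import Pool.Agent.Lib.MP_10e784_agBR.Defs

/-!
LEAF Grp.  Lines through a point.
Let `P = (x, y)` be a point of `E : y² = x³ + α x + β`, `l` a rational number, `n = y - l x`.  The line `Y = l X + n` passes through `P`; the other two intersection points have the
`X`-coordinates of sum `l² - x` and product `x² + l² x - 2 l y + α` (`X³ + α X + β - (l X + n)² = (X - x)(X² - (l² - x) X + (x² + l² x - 2 l y + α))`, identity by `y² = ..`), discriminant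
`f(l) = l⁴ - 6 x l² + 8 y l - 3 x² - 4 α`.
two_of_zero.  `f(l) = 0`: put `X₁ = (l² - x)/2`, `Y₁ = l X₁ + n`; `(X₁, Y₁)` is on `E` (`EW_nons` with `dsc ≠ 0` gives Nonsingular), `Lin α β l n x y X₁ Y₁ X₁ Y₁` holds (`e2`, `e3` from `f(l) = 0`), so
`P + U + U = 0` (`sum_of_lin`) and `P = 2 • (-U)`.
cls_of_sq.  `f(l) = w²`, `w ≠ 0`: put `X₁ = (l² - x + w)/2`, `X₂ = (l² - x - w)/2`, `Y_i = l X_i + n`: `Lin α β l n x y X₁ Y₁ X₂ Y₂`, so `P + U + U' = 0`.  Let `R = U - U'`, which is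
`P + 2 U` (as `- U' = P + U`).  Its `x`-coordinate: `X₁ ≠ X₂`, `- U' = (X₂, - Y₂)`, slope `m = (Y₁ + Y₂)/(X₁ - X₂) = (l (l² - x) + 2 n)/w` (`slope_of_X_ne`, `add_some`), so `x(R) = m² - (l² - x)` and
`w² x(R) = (l³ - 3 x l + 2 y)² - (l² - x) f(l) = x l⁴ - 4 y l³ + (6 x² + 4 α) l² - 4 x y l + 4 y² - 3 x³ - 4 α x` (ring, `w² = f(l)`).  By hypothesis this is `w² x'`, so `x(R) = x'`, and `R = ± Q`
(`Y_eq_of_X_eq` or: `y(R)² = y'²`).  If `Q = R` take `U`; if `Q = - R = - P - 2 U = P + 2 • (- P - U)` take `- P - U`.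
cls_of_x.  `x' = x`: `Q = P` (take 0) or `Q = - P = P + 2 • (- P)`.
-/

namespace MWS

private theorem Grp_eqn {α β : ℤ} {l n x₁ y₁ x₂ y₂ x₃ y₃ : ℚ}
    (h : Lin α β l n x₁ y₁ x₂ y₂ x₃ y₃) (x y : ℚ) (hy : y = l * x + n)
    (hx : (x - x₁) * (x - x₂) * (x - x₃) = 0) : y ^ 2 = x ^ 3 + (α : ℚ) * x + (β : ℚ) := by
  rw [hy]
  linear_combination x ^ 2 * h.e1 - x * h.e2 - h.e3 - hx

private theorem Grp_dsc {α β : ℤ} (hd : dsc α β ≠ 0) : ((dsc α β : ℤ) : ℚ) ≠ 0 := by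
  exact_mod_cast hd

private theorem Grp_some {α β : ℤ} {x y x' y' : ℚ}
    (h : (EW ℚ α β).toAffine.Nonsingular x y) (h' : (EW ℚ α β).toAffine.Nonsingular x' y')
    (hx : x' = x) :
    (.some x' y' h' : Pt ℚ α β) = .some x y h ∨ (.some x' y' h' : Pt ℚ α β) = - .some x y h := by
  subst hx
  have e1 := (EW_eqn α β x' y).1 h.1
  have e2 := (EW_eqn α β x' y').1 h'.1
  have e3 : y' ^ 2 = y ^ 2 := by rw [e1, e2]
  have hn : (EW ℚ α β).toAffine.negY x' y = -y := by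
    show -y - (0 : ℚ) * x' - 0 = -y
    ring
  rcases sq_eq_sq_iff_eq_or_eq_neg.1 e3 with h3 | h3
  · left
    rw [WeierstrassCurve.Affine.Point.some.injEq]
    exact ⟨rfl, h3⟩
  · right
    rw [WeierstrassCurve.Affine.Point.neg_some, WeierstrassCurve.Affine.Point.some.injEq]
    exact ⟨rfl, by rw [hn, h3]⟩

theorem two_of_zero {α β : ℤ} (hd : dsc α β ≠ 0) (x y : ℚ)
    (h : (EW ℚ α β).toAffine.Nonsingular x y) (l : ℚ)
    (h0 : l ^ 4 - 6 * x * l ^ 2 + 8 * y * l - (3 * x ^ 2 + 4 * α) = 0) :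
    ∃ U : Pt ℚ α β, (.some x y h : Pt ℚ α β) = 2 • U := by
  have e := (EW_eqn α β x y).1 h.1
  have hd' := Grp_dsc hd
  have h2 : (2 : ℚ) ≠ 0 := two_ne_zero
  have hl : Lin α β l (y - l * x) x y ((l ^ 2 - x) / 2) (l * ((l ^ 2 - x) / 2) + (y - l * x))
      ((l ^ 2 - x) / 2) (l * ((l ^ 2 - x) / 2) + (y - l * x)) := by
    refine ⟨by ring, by ring, by ring, by ring, ?_, ?_⟩
    · linear_combination (-1 / 4) * h0
    · linear_combination (-1) * e + (x / 4) * h0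
  have h3 : (EW ℚ α β).toAffine.Nonsingular ((l ^ 2 - x) / 2)
      (l * ((l ^ 2 - x) / 2) + (y - l * x)) :=
    (EW_nons α β h2 hd' _ _).2 (Grp_eqn hl _ _ rfl (by ring))
  have h4 := sum_of_lin α β h2 hd' _ _ _ _ _ _ _ _ h h3 h3 hl
  refine ⟨- .some _ _ h3, ?_⟩
  rw [two_nsmul, ← neg_add, eq_neg_iff_add_eq_zero, ← add_assoc]
  exact h4

theorem cls_of_sq {α β : ℤ} (hd : dsc α β ≠ 0) (x y : ℚ)
    (h : (EW ℚ α β).toAffine.Nonsingular x y) (x' y' : ℚ)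
    (h' : (EW ℚ α β).toAffine.Nonsingular x' y') (l w : ℚ) (hw : w ≠ 0)
    (h1 : l ^ 4 - 6 * x * l ^ 2 + 8 * y * l - (3 * x ^ 2 + 4 * α) = w ^ 2)
    (h2 : w ^ 2 * x' = x * l ^ 4 - 4 * y * l ^ 3 + (6 * x ^ 2 + 4 * α) * l ^ 2 - 4 * x * y * l +
      (4 * y ^ 2 - 3 * x ^ 3 - 4 * α * x)) :
    ∃ U : Pt ℚ α β, (.some x' y' h' : Pt ℚ α β) = .some x y h + 2 • U := by
  have e := (EW_eqn α β x y).1 h.1
  have hd' := Grp_dsc hd
  have t2 : (2 : ℚ) ≠ 0 := two_ne_zero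
  obtain ⟨n, hn⟩ : ∃ n, n = y - l * x := ⟨_, rfl⟩
  obtain ⟨X₁, hX₁⟩ : ∃ X, X = (l ^ 2 - x + w) / 2 := ⟨_, rfl⟩
  obtain ⟨X₂, hX₂⟩ : ∃ X, X = (l ^ 2 - x - w) / 2 := ⟨_, rfl⟩
  obtain ⟨Y₁, hY₁⟩ : ∃ Y, Y = l * X₁ + n := ⟨_, rfl⟩
  obtain ⟨Y₂, hY₂⟩ : ∃ Y, Y = l * X₂ + n := ⟨_, rfl⟩
  have hl : Lin α β l n x y X₁ Y₁ X₂ Y₂ := by
    refine ⟨by rw [hn]; ring, hY₁, hY₂, by rw [hX₁, hX₂]; ring, ?_, ?_⟩
    · rw [hX₁, hX₂, hn]
      linear_combination (-1 / 4) * h1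
    · rw [hX₁, hX₂, hn]
      linear_combination (-1) * e + (x / 4) * h1
  have n1 : (EW ℚ α β).toAffine.Nonsingular X₁ Y₁ :=
    (EW_nons α β t2 hd' _ _).2 (Grp_eqn hl _ _ hY₁ (by ring))
  have n2 : (EW ℚ α β).toAffine.Nonsingular X₂ Y₂ :=
    (EW_nons α β t2 hd' _ _).2 (Grp_eqn hl _ _ hY₂ (by ring))
  have h4 := sum_of_lin α β t2 hd' _ _ _ _ _ _ _ _ h n1 n2 hl
  have hX : X₁ - X₂ = w := by rw [hX₁, hX₂]; ring
  have hXn : X₁ ≠ X₂ := fun hc => hw (by rw [← hX, hc, sub_self])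
  -- the point `R = U - U'`
  have hR : (.some X₁ Y₁ n1 : Pt ℚ α β) + - .some X₂ Y₂ n2 =
      .some x y h + 2 • .some X₁ Y₁ n1 := by
    have h5 : - (.some X₂ Y₂ n2 : Pt ℚ α β) = .some x y h + .some X₁ Y₁ n1 := by
      rw [neg_eq_iff_add_eq_zero, add_comm]
      exact h4
    rw [h5, two_nsmul]
    abel
  have n2' := WeierstrassCurve.Affine.Point.neg_some n2
  rw [n2'] at hR
  have hxy : ¬(X₁ = X₂ ∧ Y₁ = (EW ℚ α β).toAffine.negY X₂ ((EW ℚ α β).toAffine.negY X₂ Y₂)) :=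
    fun hc => hXn hc.1
  rw [WeierstrassCurve.Affine.Point.add_some hxy] at hR
  have hnY : (EW ℚ α β).toAffine.negY X₂ Y₂ = -Y₂ := by
    show -Y₂ - (0 : ℚ) * X₂ - 0 = -Y₂
    ring
  have hx' : x' = (EW ℚ α β).toAffine.addX X₁ X₂
      ((EW ℚ α β).toAffine.slope X₁ X₂ Y₁ ((EW ℚ α β).toAffine.negY X₂ Y₂)) := by
    rw [WeierstrassCurve.Affine.slope_of_X_ne hXn, hnY, hX]
    show x' = ((Y₁ - -Y₂) / w) ^ 2 + (0 : ℚ) * ((Y₁ - -Y₂) / w) - 0 - X₁ - X₂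
    have h6 : w ^ 2 * x' = (Y₁ - -Y₂) ^ 2 - w ^ 2 * (X₁ + X₂) := by
      rw [h2, hY₁, hY₂, hX₁, hX₂, hn]
      linear_combination (-(l ^ 2 - x)) * h1
    have h7 : w ^ 2 ≠ 0 := pow_ne_zero 2 hw
    have h8 : x' = ((Y₁ - -Y₂) ^ 2 - w ^ 2 * (X₁ + X₂)) / w ^ 2 := by
      rw [eq_div_iff h7, ← h6]
      ring
    rw [h8]
    field_simp
    ring
  rcases Grp_some _ h' hx' with h9 | h9
  · refine ⟨.some X₁ Y₁ n1, ?_⟩
    rw [h9]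
    exact hR
  · refine ⟨- .some x y h - .some X₁ Y₁ n1, ?_⟩
    rw [h9, hR, two_nsmul, two_nsmul]
    abel

theorem cls_of_x {α β : ℤ} (x y : ℚ)
    (h : (EW ℚ α β).toAffine.Nonsingular x y) (y' : ℚ)
    (h' : (EW ℚ α β).toAffine.Nonsingular x y') :
    ∃ U : Pt ℚ α β, (.some x y' h' : Pt ℚ α β) = .some x y h + 2 • U := by
  rcases Grp_some h h' rfl with h3 | h3
  · exact ⟨0, by rw [h3, smul_zero, add_zero]⟩
  · refine ⟨- .some x y h, ?_⟩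
    rw [h3, two_nsmul]
    abel

end MWS
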