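import Pool.Agent.Lib.MP_10e784_agBR.Few

/-!
LEAF Main.  The average.
Let `S_H` be the finite set of `count_region`.  The bad pairs `(α, β)`: by `few_of_card` the set `S_(α,β)` of the forms in `S_H` with invariants `(- 48 α, - 1728 β)` has at least `2 ^ t` elements.  These subsets
of `S_H` are disjoint for different pairs, so `2 ^ t * #bad ≤ #S_H ≤ C H⁵ (1 + log H)`.  (Map `S_H → ℤ × ℤ`, `F ↦ (I, J)`; `Finset.card_nsmul_le_card_of_..`, `Finset.card_eq_sum_card_fiberwise` or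
`Finset.mul_card_image_le`-like lemmas.)
-/

namespace MWS

theorem factR : FactR := by
  classical
  obtain ⟨C, hC, h⟩ := count_region
  refine ⟨C, fun H hH t => ?_⟩
  obtain ⟨hfin, hcard⟩ := h H hH
  rw [Set.ncard_eq_toFinset_card _ hfin] at hcard
  have hB : ({z : ℤ × ℤ | |z.1| ≤ (H : ℤ) ^ 2 ∧ |z.2| ≤ (H : ℤ) ^ 3 ∧ dsc z.1 z.2 ≠ 0 ∧
      ¬ Few z.1 z.2 t}).Finite := by
    refine ((Set.finite_Icc (-((H : ℤ) ^ 2)) ((H : ℤ) ^ 2)).prod
      (Set.finite_Icc (-((H : ℤ) ^ 3)) ((H : ℤ) ^ 3))).subset ?_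
    rintro ⟨a, b⟩ ⟨h1, h2, -⟩
    exact ⟨abs_le.1 h1, abs_le.1 h2⟩
  have hcB : Nat.card {z : ℤ × ℤ // |z.1| ≤ (H : ℤ) ^ 2 ∧ |z.2| ≤ (H : ℤ) ^ 3 ∧
      dsc z.1 z.2 ≠ 0 ∧ ¬ Few z.1 z.2 t} = hB.toFinset.card := by
    rw [← Set.ncard_eq_toFinset_card _ hB]
    rfl
  have hkey : hB.toFinset.card * 2 ^ t ≤ hfin.toFinset.card := by
    let g : Qu ℤ → ℤ × ℤ := fun F => (F.I, F.J)
    let φ : ℤ × ℤ → ℤ × ℤ := fun z => (-48 * z.1, -1728 * z.2)
    have hφ : Function.Injective φ := by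
      rintro ⟨a, b⟩ ⟨c, d⟩ hh
      simp only [φ, Prod.mk.injEq] at hh ⊢
      constructor
      · linarith [hh.1]
      · linarith [hh.2]
    calc hB.toFinset.card * 2 ^ t = ∑ z ∈ hB.toFinset, 2 ^ t := by
          rw [Finset.sum_const, smul_eq_mul]
      _ ≤ ∑ z ∈ hB.toFinset, (hfin.toFinset.filter fun F => g F = φ z).card := by
          refine Finset.sum_le_sum fun z hz => ?_
          obtain ⟨h1, h2, h3, h4⟩ := (Set.Finite.mem_toFinset hB).1 hz
          by_contra hlt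
          push Not at hlt
          refine h4 (few_of_card H hH z.1 z.2 h1 h2 h3 t ?_)
          have he : ({F : Qu ℤ | (F.a ≠ 0 ∧ Rg H F.a F.b F.c F.d F.e) ∧ F.I = -48 * z.1 ∧
              F.J = -1728 * z.2} : Set (Qu ℤ)) =
              ((hfin.toFinset.filter fun F => g F = φ z : Finset (Qu ℤ)) : Set (Qu ℤ)) := by
            ext F
            simp only [Set.mem_ofPred_eq, Finset.coe_filter, Set.Finite.mem_toFinset, g, φ,
              Prod.mk.injEq]
          rw [he, Set.ncard_coe_finset]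
          omega
      _ = ∑ w ∈ hB.toFinset.image φ, (hfin.toFinset.filter fun F => g F = w).card := by
          rw [Finset.sum_image fun x _ y _ hxy => hφ hxy]
      _ = (hfin.toFinset.filter fun F => g F ∈ hB.toFinset.image φ).card :=
          Finset.sum_card_fiberwise_eq_card_filter _ _ _
      _ ≤ hfin.toFinset.card := Finset.card_filter_le _ _
  rw [hcB]
  refine le_trans ?_ hcard
  exact_mod_cast hkey

end MWS
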